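import Pool.Agent.P.MP_d589a8_al.Gw.Iface

/-! Steps CYC, STEP, LEN, PU, PT, TYP, CNT. -/

set_option linter.unusedSectionVars false

namespace Pool.Agent.P.MP_d589a8_al.Gz

open Equiv Finset

theorem p_CYC :
    S_CYC := by
  intro α _ _ σ p
  have hp : p ∈ Function.periodicPts σ := σ.injective.mem_periodicPts p
  have r0 := Function.minimalPeriod_pos_of_mem_periodicPts hp
  have inj : ∀ {s t : ℕ}, s < _ → t < _ → (σ ^ s) p = (σ ^ t) p → s = t := fun a b h =>
    Function.iterate_injOn_Iio_minimalPeriod (f := σ) (x := p) a b h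
  have ex : ∀ q ∈ cyc σ p, ∃ s < Function.minimalPeriod σ p, (σ ^ s) p = q := fun q hq => by
    obtain ⟨s, -, rfl⟩ := (mem_cyc.1 hq).exists_pow_eq'
    exact ⟨_, Nat.mod_lt s r0, Function.iterate_mod_minimalPeriod_eq⟩
  have e : (cyc σ p).card = Function.minimalPeriod σ p := by
    rw [← card_range (Function.minimalPeriod σ p)]
    refine (card_bij (fun (s : ℕ) _ => (σ ^ s) p) (fun s _ => mem_cyc.2 ⟨s, by rw [zpow_natCast]⟩)
      (fun s hs t ht h => inj (mem_range.1 hs) (mem_range.1 ht) h) fun q hq => ?_).symm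
    obtain ⟨s, h1, h2⟩ := ex q hq
    exact ⟨s, mem_range.2 h1, h2⟩
  have c : ∀ s u : ℕ, (σ ^ s) ((σ ^ u) p) = (σ ^ u) ((σ ^ s) p) := fun s u => by
    rw [← Perm.mul_apply, ← Perm.mul_apply, pow_mul_comm]
  rw [e]
  refine ⟨r0, fun q hq => ?_, fun q hq s hs t ht h => ?_, ex⟩ <;> obtain ⟨u, -, rfl⟩ := ex q hq
  · rw [c]
    exact congrArg _ (Function.isPeriodicPt_minimalPeriod σ p)
  · rw [c s, c t] at h
    exact inj hs ht ((σ ^ u).injective h)

end Pool.Agent.P.MP_d589a8_al.Gz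

namespace Pool.Agent.P.MP_d589a8_al.Gz

open Equiv Finset

theorem p_STEP :
    S_STEP := by
  classical
  intro α _ _ D q A G m N h1 h2 h3 h4
  rw [cn_eq, cn_eq, mul_comm, mul_comm N]
  have key : ∀ y z, G y → z ∉ (D y).image y → ∀ x ∈ D y, (swap (y (q y)) z * y) x = y x :=
    fun y z hy hz x hx => swap_apply_of_ne_of_ne
      (fun e => h2 y hy (y.injective e ▸ hx)) fun e => hz (e ▸ mem_image_of_mem _ hx)
  calc _ ≤ ((univ.filter fun y => G y ∧ y (q y) ∈ A y).sigma fun y => ((D y).image y)ᶜ).card := by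
        rw [card_sigma, ← smul_eq_mul]
        refine card_nsmul_le_sum _ _ _ fun y hy => ?_
        rw [card_compl]
        exact Nat.sub_le_sub_left (card_image_le.trans (h3 y (mem_filter.1 hy).2.1)) _
    _ ≤ ((univ.filter G).sigma A).card := by
        refine card_le_card_of_injOn (fun x => ⟨swap (x.1 (q x.1)) x.2 * x.1, x.1 (q x.1)⟩)
          (fun x hx => ?_) fun x hx x' hx' e => ?_
        · obtain ⟨a, b⟩ := mem_sigma.1 hx
          obtain ⟨-, a1, a2⟩ := mem_filter.1 a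
          obtain ⟨c1, -, -, c2⟩ := h1 _ _ a1 (key _ _ a1 (mem_compl.1 b))
          exact mem_sigma.2 ⟨mem_filter.2 ⟨mem_univ _, c1⟩, c2 ▸ a2⟩
        · have k : ∀ x ∈ (univ.filter fun y => G y ∧ y (q y) ∈ A y).sigma
              fun y => ((D y).image y)ᶜ, (swap (x.1 (q x.1)) x.2 * x.1)
                (q (swap (x.1 (q x.1)) x.2 * x.1)) = x.2 := fun x hx => by
            obtain ⟨a, b⟩ := mem_sigma.1 hx
            have a1 := (mem_filter.1 a).2.1
            rw [(h1 _ _ a1 (key _ _ a1 (mem_compl.1 b))).2.2.1, Perm.mul_apply, swap_apply_left]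
          obtain ⟨e1, e2⟩ := Sigma.mk.inj e
          have e3 : x.2 = x'.2 := by rw [← k x hx, ← k x' hx', e1]
          rw [eq_of_heq e2, e3] at e1
          exact Sigma.ext (mul_left_cancel e1) (heq_of_eq e3)
    _ ≤ _ := by
        rw [card_sigma, ← smul_eq_mul]
        exact sum_le_card_nsmul _ _ _ fun y hy => h4 y (mem_filter.1 hy).2

end Pool.Agent.P.MP_d589a8_al.Gz

namespace Pool.Agent.P.MP_d589a8_al.Gz

open Equiv Finset

section len

variable {α : Type} [Fintype α] [DecidableEq α] {p : α} {t : ℕ} {σ σ' : Perm α}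

/-- No return up to time `t`. -/
def len_G (p : α) (t : ℕ) (σ : Perm α) : Prop := ∀ j, 1 ≤ j → j ≤ t → (σ ^ j) p ≠ p

lemma len_lt (h : len_G p t σ) {i j : ℕ} (hij : i < j) (hj : j ≤ t) : (σ ^ i) p ≠ (σ ^ j) p :=
  fun e => h (j - i) (by omega) (by omega) ((σ ^ i).injective (by
    rw [← Perm.mul_apply, ← pow_add, add_tsub_cancel_of_le hij.le, e]))

lemma len_not (h : len_G p t σ) : (σ ^ t) p ∉ (range t).image fun j => (σ ^ j) p := fun e => by
  obtain ⟨j, a, b⟩ := mem_image.1 e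
  exact len_lt h (mem_range.1 a) le_rfl b

lemma len_card (h : len_G p t σ) : ((range (t + 1)).image fun j => (σ ^ j) p).card = t + 1 := by
  rw [card_image_of_injOn, card_range]
  intro i hi j hj e
  have a := Nat.lt_succ_iff.1 (mem_range.1 hi)
  have b := Nat.lt_succ_iff.1 (mem_range.1 hj)
  rcases lt_trichotomy i j with c | c | c
  exacts [absurd e (len_lt h c b), c, absurd e.symm (len_lt h c a)]

lemma len_agree (h : ∀ z ∈ (range t).image fun j => (σ ^ j) p, σ' z = σ z) :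
    ∀ j ≤ t, (σ' ^ j) p = (σ ^ j) p := fun j => by
  induction j with
  | zero => simp
  | succ j ih =>
    intro hj
    rw [pow_succ', pow_succ', Perm.mul_apply, Perm.mul_apply, ih (by omega)]
    exact h _ (mem_image.2 ⟨j, mem_range.2 hj, rfl⟩)

lemma len_step (hS : S_STEP) (p : α) (t N : ℕ) (A : Finset α → Finset α) {H : Perm α → Prop}
    (hA : ∀ s : Finset α, s.card = t + 1 → (A s).card ≤ N) (hH : ∀ σ, H σ → len_G p t σ ∧
      (σ ^ (t + 1)) p ∈ A ((range (t + 1)).image fun j => (σ ^ j) p)) :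
    (Fintype.card α - t) * cn univ H ≤ N * cn univ (len_G p t) := by
  refine (Nat.mul_le_mul_left _ (cn_mono fun σ _ h => ?_)).trans
    (hS α (fun σ => (range t).image fun j => (σ ^ j) p) (fun σ => (σ ^ t) p)
      (fun σ => A ((range (t + 1)).image fun j => (σ ^ j) p)) (len_G p t) t N (fun y y' g e => ?_)
      (fun _ => len_not) (fun _ _ => card_image_le.trans_eq (card_range t))
      fun _ g => hA _ (len_card g))
  · simpa only [pow_succ', Perm.mul_apply] using hH σ h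
  · have a := len_agree e
    exact ⟨fun j b c => a j c ▸ g j b c, image_congr fun j hj => a j (mem_range.1 hj).le, a t le_rfl,
      congrArg A (image_congr fun j hj => a j (Nat.lt_succ_iff.1 (mem_range.1 hj)))⟩

lemma len_A (hS : S_STEP) (p : α) (t : ℕ) (ht : t ≤ Fintype.card α) :
    Fintype.card α * cn univ (len_G p t) ≤ (Fintype.card α - t) * (Fintype.card α).factorial := by
  induction t with
  | zero => exact Nat.mul_le_mul_left _ ((cn_le _ _).trans_eq (card_univ.trans Fintype.card_perm))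
  | succ t ih =>
    have a := len_step hS p t (Fintype.card α - (t + 1)) compl (H := len_G p (t + 1))
      (fun s hs => by rw [card_compl, hs])
      fun σ h => ⟨fun j b c => h j b (by omega), mem_compl.2 (len_not h)⟩
    refine Nat.le_of_mul_le_mul_left ?_ (show 0 < Fintype.card α - t by omega)
    rw [mul_left_comm, mul_left_comm (_ - t)]
    refine (Nat.mul_le_mul_left _ a).trans ?_
    rw [mul_left_comm]
    exact Nat.mul_le_mul_left _ (ih (by omega))

lemma len_B (hS : S_STEP) (hC : S_CYC) (p : α) (r : ℕ) (hr : r ∈ Icc 1 (Fintype.card α)) :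
    Fintype.card α * cn univ (fun σ : Perm α => (cyc σ p).card = r) ≤
      (Fintype.card α).factorial := by
  obtain ⟨h1, h2⟩ := mem_Icc.1 hr
  obtain ⟨t, rfl⟩ := Nat.exists_eq_add_of_le' h1
  have a := len_step hS p t 1 (fun _ => {p}) (H := fun σ => (cyc σ p).card = t + 1)
    (fun _ _ => (card_singleton p).le) fun σ h => by
      obtain ⟨-, b, c, -⟩ := hC α σ p
      have d : p ∈ cyc σ p := mem_cyc.2 (Perm.SameCycle.refl _ _)
      rw [h] at b c
      exact ⟨fun j e f g => by have := c p d j (by omega) 0 (by omega) g; omega,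
        mem_singleton.2 (b p d)⟩
  refine Nat.le_of_mul_le_mul_left ?_ (show 0 < Fintype.card α - t by omega)
  rw [mul_left_comm]
  refine (Nat.mul_le_mul_left _ a).trans ?_
  rw [one_mul]
  exact len_A hS p t (by omega)

end len

theorem p_LEN (hSTEP : S_STEP) (hCYC : S_CYC) :
    S_LEN := by
  intro α _ _ p r h1 h2
  refine (sum_eq_sum_iff_of_le (len_B hSTEP hCYC p)).1 ?_ r (mem_Icc.2 ⟨h1, h2⟩)
  simp only [cn_eq]
  rw [← mul_sum, ← card_eq_sum_card_fiberwise fun σ _ =>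
    mem_coe.2 (mem_Icc.2 ⟨(hCYC α σ p).1, card_le_univ _⟩), card_univ, Fintype.card_perm]
  simp

end Pool.Agent.P.MP_d589a8_al.Gz

namespace Pool.Agent.P.MP_d589a8_al.Gz

open Equiv Finset

theorem p_PU (hLEN : S_LEN) (hCYC : S_CYC) :
    S_PU := by
  classical
  intro α _ _ t
  set n := Fintype.card α with hn
  rcases Nat.eq_zero_or_pos n with h0 | h0
  · have : cn univ (fun σ : Perm α => n < 2 ^ (15 * t) *
        cn univ (fun p : α => 2 ^ (16 * t) * (cyc σ p).card ≤ n)) = 0 := by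
      rw [cn_eq, card_eq_zero, filter_eq_empty_iff]
      intro σ _
      have := cn_le univ (fun p : α => 2 ^ (16 * t) * (cyc σ p).card ≤ n)
      rw [card_univ, ← hn, h0, Nat.le_zero] at this
      rw [h0, this]
      simp
    rw [this]
    simp
  set m := n / 2 ^ (16 * t) with hm
  have hmn : 2 ^ (16 * t) * m ≤ n := Nat.mul_div_le _ _
  have h1 : ∀ p : α, n * cn univ (fun σ : Perm α => 2 ^ (16 * t) * (cyc σ p).card ≤ n) ≤
      m * n.factorial := fun p => by
    have a : cn univ (fun σ : Perm α => 2 ^ (16 * t) * (cyc σ p).card ≤ n) ≤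
        ∑ ρ ∈ Icc 1 m, cn univ (fun σ : Perm α => (cyc σ p).card = ρ) :=
      (cn_mono fun σ _ h => ⟨(cyc σ p).card, mem_Icc.2 ⟨(hCYC α σ p).1,
        (Nat.le_div_iff_mul_le (by positivity)).2 (by rw [mul_comm]; exact h)⟩, rfl⟩).trans
        (cn_exists_le univ (Icc 1 m) fun ρ (σ : Perm α) => (cyc σ p).card = ρ)
    refine (Nat.mul_le_mul_left n a).trans (le_of_eq ?_)
    rw [mul_sum, sum_congr rfl fun ρ hρ => hLEN α p ρ (mem_Icc.1 hρ).1
      ((mem_Icc.1 hρ).2.trans (Nat.div_le_self _ _)), sum_const, Nat.card_Icc, smul_eq_mul,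
      Nat.add_sub_cancel]
  have h2 : ∑ σ : Perm α, cn univ (fun p : α => 2 ^ (16 * t) * (cyc σ p).card ≤ n) ≤
      m * n.factorial := by
    refine Nat.le_of_mul_le_mul_left ?_ h0
    rw [sum_cn_comm, mul_sum]
    refine (sum_le_sum fun p _ => h1 p).trans (le_of_eq ?_)
    simp [hn]
  have h3 : n * cn univ (fun σ : Perm α => n < 2 ^ (15 * t) *
        cn univ (fun p : α => 2 ^ (16 * t) * (cyc σ p).card ≤ n)) ≤
      2 ^ (15 * t) * ∑ σ : Perm α,
        cn univ (fun p : α => 2 ^ (16 * t) * (cyc σ p).card ≤ n) := by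
    rw [cn_eq_sum, mul_sum, mul_sum]
    refine sum_le_sum fun σ _ => ?_
    split_ifs with h
    · rw [mul_one]; exact h.le
    · simp
  refine Nat.le_of_mul_le_mul_left ?_ h0
  calc _ = 2 ^ t * (n * _) := by ring
    _ ≤ 2 ^ t * (2 ^ (15 * t) * (m * n.factorial)) :=
        Nat.mul_le_mul_left _ (h3.trans (Nat.mul_le_mul_left _ h2))
    _ = 2 ^ (16 * t) * m * n.factorial := by ring
    _ ≤ n * n.factorial := Nat.mul_le_mul_right _ hmn

end Pool.Agent.P.MP_d589a8_al.Gz

namespace Pool.Agent.P.MP_d589a8_al.Gz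

open Equiv Finset

lemma pt_one (hLEN : S_LEN) (α : Type) [Fintype α] [DecidableEq α] (ρ : ℕ) (h1 : 1 ≤ ρ)
    (h2 : ρ ≤ Fintype.card α) :
    ρ * cn univ (fun σ : Perm α => ∃ p, (cyc σ p).card = ρ) ≤ (Fintype.card α).factorial := by
  classical
  have e : ∑ σ : Perm α, cn univ (fun q => (cyc σ q).card = ρ) = (Fintype.card α).factorial := by
    rw [sum_cn_comm]
    refine Nat.eq_of_mul_eq_mul_left (h1.trans h2) ?_
    rw [mul_sum, sum_congr rfl fun q _ => hLEN α q ρ h1 h2]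
    simp
  rw [← e, cn_eq_sum, mul_sum]
  refine sum_le_sum fun σ _ => ?_
  split_ifs with h
  · obtain ⟨p, hp⟩ := h
    rw [mul_one, cn_eq, ← hp]
    refine card_le_card fun q hq => mem_filter.2 ⟨mem_univ _, ?_⟩
    congr 1
    ext z
    rw [mem_cyc, mem_cyc]
    exact ⟨fun h => (mem_cyc.1 hq).trans h, fun h => (mem_cyc.1 hq).symm.trans h⟩
  · simp

lemma pt_harm (n u : ℕ) :
    ∑ ρ ∈ (Icc 1 n).filter (fun ρ => n < 2 ^ u * ρ), (1 / ρ : ℝ) ≤ u + 1 := by
  rcases Nat.eq_zero_or_pos n with rfl | hn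
  · simp
    positivity
  set a := n / 2 ^ u with ha
  have h1 : n < 2 ^ u * (a + 1) := Nat.lt_mul_div_succ n (by positivity)
  have h2 : a ≤ n := Nat.div_le_self _ _
  have e : (Icc 1 n).filter (fun ρ => n < 2 ^ u * ρ) = Icc 1 n \ Icc 1 a := by
    ext ρ
    simp only [mem_filter, mem_sdiff, mem_Icc, ha, not_and, not_le]
    rw [Nat.div_lt_iff_lt_mul (by positivity), mul_comm]
    tauto
  have hh : ∀ k : ℕ, ∑ ρ ∈ Icc 1 k, (1 / ρ : ℝ) = harmonic k := fun k => by
    simp [harmonic_eq_sum_Icc]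
  rw [e, sum_sdiff_eq_sub (Icc_subset_Icc_right h2), hh, hh]
  have h3 := harmonic_le_one_add_log n
  have h4 := log_add_one_le_harmonic a
  have h5 : Real.log n ≤ u * Real.log 2 + Real.log (a + 1 : ℕ) := by
    rw [← Real.log_pow, ← Real.log_mul (by positivity) (by positivity)]
    exact Real.log_le_log (by exact_mod_cast hn) (by exact_mod_cast h1.le)
  have h6 : Real.log 2 ≤ 1 := by linarith [Real.log_two_lt_d9]
  nlinarith [(Nat.cast_nonneg u : (0 : ℝ) ≤ u)]

theorem p_PT (hLEN : S_LEN) :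
    S_PT := by
  classical
  intro α _ _ u M
  set n := Fintype.card α with hn
  have h1 : M * (u + 1) * cn univ (fun σ : Perm α => M * (u + 1) < cn (Icc 1 n)
      (fun ρ => n < 2 ^ u * ρ ∧ ∃ p, (cyc σ p).card = ρ)) ≤
      ∑ σ : Perm α, cn (Icc 1 n) (fun ρ => n < 2 ^ u * ρ ∧ ∃ p, (cyc σ p).card = ρ) := by
    rw [cn_eq_sum, mul_sum]
    refine sum_le_sum fun σ _ => ?_
    split_ifs with h
    · rw [mul_one]
      exact h.le
    · simp
  have h2 : ((∑ σ : Perm α, cn (Icc 1 n)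
      (fun ρ => n < 2 ^ u * ρ ∧ ∃ p, (cyc σ p).card = ρ) : ℕ) : ℝ) ≤ n.factorial * (u + 1) := by
    refine le_trans ?_ (mul_le_mul_of_nonneg_left (pt_harm n u) (Nat.cast_nonneg _))
    rw [sum_cn_comm, sum_filter, mul_sum, Nat.cast_sum]
    refine sum_le_sum fun ρ hρ => ?_
    obtain ⟨a1, a2⟩ := mem_Icc.1 hρ
    split_ifs with h
    · rw [cn_congr (Q := fun σ : Perm α => ∃ p, (cyc σ p).card = ρ) fun σ _ => by simp [h],
        mul_one_div, le_div_iff₀ (by exact_mod_cast a1), mul_comm]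
      exact_mod_cast pt_one hLEN α ρ a1 a2
    · simp [cn_eq, h]
  refine Nat.le_of_mul_le_mul_right ?_ (Nat.succ_pos u)
  rw [mul_right_comm]
  exact h1.trans (by exact_mod_cast h2)

end Pool.Agent.P.MP_d589a8_al.Gz

namespace Pool.Agent.P.MP_d589a8_al.Gz

open Equiv Finset

lemma typ_sum (N T : ℕ) (c : ℕ → ℕ) (I : Finset ℕ) (h : ∀ j ∈ I, 2 ^ j * T * c j ≤ N) :
    T * ∑ j ∈ I, c j ≤ 2 * N := by
  have h1 : ∑ j ∈ I, (1 / 2 : ℝ) ^ j ≤ 2 :=
    sum_le_hasSum I (fun _ _ => by positivity) hasSum_geometric_two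
  have h2 : ((T * ∑ j ∈ I, c j : ℕ) : ℝ) ≤ ∑ j ∈ I, (1 / 2 : ℝ) ^ j * N := by
    push_cast
    rw [mul_sum]
    refine sum_le_sum fun j hj => ?_
    have : (2 : ℝ) ^ j * T * c j ≤ N := by exact_mod_cast h j hj
    rw [one_div, inv_pow, le_inv_mul_iff₀ (by positivity), ← mul_assoc]
    exact this
  rw [← sum_mul] at h2
  exact_mod_cast h2.trans (mul_le_mul_of_nonneg_right h1 (Nat.cast_nonneg N))

theorem p_TYP (hPU : S_PU) (hPT : S_PT) :
    S_TYP := by
  intro α _ _ τ r hτ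
  have g : ∀ j, 2 ^ j * τ 1 ≤ τ (j + 1) := fun j => by
    induction j with
    | zero => simp
    | succ j ih =>
      have := Nat.mul_le_pow (a := 2) (by norm_num) (τ (j + 1))
      rw [hτ (j + 1), pow_succ]
      linarith
  let A : ℕ → Perm α → Prop := fun j σ => τ (j + 1) * (16 * τ (j + 1) + 1) <
    cn (Icc 1 (Fintype.card α))
      (fun ρ => Fintype.card α < 2 ^ (16 * τ (j + 1)) * ρ ∧ ∃ p, (cyc σ p).card = ρ)
  let B : ℕ → Perm α → Prop := fun j σ => Fintype.card α < 2 ^ (15 * τ j) *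
    cn univ (fun p : α => 2 ^ (16 * τ j) * (cyc σ p).card ≤ Fintype.card α)
  have h1 := typ_sum _ (τ 1) (fun j => cn univ (A j)) (range r) fun j _ =>
    (Nat.mul_le_mul_right _ (g j)).trans (hPT α (16 * τ (j + 1)) (τ (j + 1)))
  have h2 := typ_sum _ (τ 1) (fun j => cn univ (B j)) (Icc 1 r) fun j _ =>
    (Nat.mul_le_mul_right _ ((g j).trans_eq (hτ j))).trans (hPU α (τ j))
  have h3 : cn univ (fun σ : Perm α => ¬ Typ τ r σ) ≤
      ∑ j ∈ range r, cn univ (A j) + ∑ j ∈ Icc 1 r, cn univ (B j) := by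
    refine (cn_mono fun σ _ hσ => ?_).trans ((cn_or_le _ _ _).trans
      (add_le_add (cn_exists_le univ (range r) A) (cn_exists_le univ (Icc 1 r) B)))
    by_contra hc
    push Not at hc
    exact hσ ⟨fun j hj => not_lt.mp (hc.1 j (mem_range.mpr hj)),
      fun j h h' => not_lt.mp (hc.2 j (mem_Icc.mpr ⟨h, h'⟩))⟩
  have := Nat.mul_le_mul_left (τ 1) h3
  rw [mul_add] at this
  omega

end Pool.Agent.P.MP_d589a8_al.Gz

namespace Pool.Agent.P.MP_d589a8_al.Gz

open Equiv Finset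

theorem p_CNT :
    S_CNT := by
  classical
  intro α γ _ _ c Λ m k e F hΛ hF
  set θ : ℝ := (2 ^ (k + e))⁻¹ with hθ
  have θ0 : 0 < θ := by positivity
  have θ1 : θ ≤ 1 := inv_le_one_of_one_le₀ (one_le_pow₀ one_le_two)
  let wt : γ → ℝ := fun y => if y ≠ c then θ else 1
  have w0 : ∀ y, 0 ≤ wt y := fun y => by simp only [wt]; split_ifs <;> positivity
  have h1 : (F.card : ℝ) * θ ^ m ≤ ∑ φ ∈ F, ∏ p, wt (φ p) := by
    rw [← nsmul_eq_mul]
    refine card_nsmul_le_sum _ _ _ fun φ hφ => ?_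
    rw [prod_ite, prod_const, prod_const_one, mul_one, ← cn_eq]
    exact pow_le_pow_of_le_one θ0.le θ1 (hF φ hφ).2
  have h2 : ∑ φ ∈ F, ∏ p, wt (φ p) ≤
      ∑ φ ∈ Fintype.piFinset fun _ : α => insert c (Λ.erase c), ∏ p, wt (φ p) :=
    sum_le_sum_of_subset_of_nonneg (fun φ hφ => Fintype.mem_piFinset.2 fun p => by
      by_cases h : φ p = c
      · simp [h]
      · simp [h, (hF φ hφ).1 p h]) fun φ _ _ => prod_nonneg fun p _ => w0 _
  have h3 : ∑ y ∈ insert c (Λ.erase c), wt y ≤ Real.exp (1 / 2 ^ k) := by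
    rw [sum_insert (notMem_erase c Λ), sum_congr rfl (g := fun _ => θ) fun y hy => by
      simp [wt, ne_of_mem_erase hy], sum_const, nsmul_eq_mul]
    refine le_trans ?_ (Real.add_one_le_exp _)
    have : ((Λ.erase c).card : ℝ) ≤ 2 ^ e := by exact_mod_cast card_erase_le.trans hΛ
    have e1 : 2 ^ e * θ = 1 / 2 ^ k := by rw [hθ, pow_add]; field_simp
    have := mul_le_mul_of_nonneg_right this θ0.le
    simp only [wt, ne_eq, not_true, if_false]
    linarith
  rw [← prod_univ_sum (fun _ : α => insert c (Λ.erase c)) fun _ y => wt y, prod_const,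
    card_univ] at h2
  have h4 := (h1.trans h2).trans (pow_le_pow_left₀ (sum_nonneg fun y _ => w0 y) h3 _)
  rwa [← Real.exp_nat_mul, mul_one_div, hθ, inv_pow, ← pow_mul, mul_inv_le_iff₀' (by positivity)]
    at h4

end Pool.Agent.P.MP_d589a8_al.Gz
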