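import Pool.Agent.P.MP_d589a8_al.Gw.Iface

/-! Steps PH, LEV, LA, LB, DETB, PAR, SNB, MAINB. -/

set_option linter.unusedSectionVars false

namespace Pool.Agent.P.MP_d589a8_al.Gz

open Equiv Finset

lemma ph_red {β : Type} (L : List (β × Bool)) (h : ∀ a ∈ L, a.2 = true) :
    FreeGroup.IsReduced L := by
  unfold FreeGroup.IsReduced
  rw [List.isChain_iff_forall_rel_of_append_cons_cons]
  intro a c l₁ l₂ hL _
  rw [h a (by simp [hL]), h c (by simp [hL])]

lemma ph_words {β : Type} [DecidableEq β] {i j : β} (hij : i ≠ j) (l : ℕ) :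
    ∃ P : (Fin l → Bool) → FreeGroup β, Function.Injective P ∧ (∀ f, (P f).norm ≤ l) ∧
      ∀ f, FreeGroup.lift (fun _ => Multiplicative.ofAdd (1 : ℤ)) (P f) =
        Multiplicative.ofAdd (1 : ℤ) ^ l := by
  refine ⟨fun f => FreeGroup.mk (List.ofFn fun t => (if f t then i else j, true)),
    fun f f' h => ?_, fun f => FreeGroup.norm_mk_le.trans (by simp), fun f => ?_⟩
  · have h1 := congrArg FreeGroup.toWord h
    rw [FreeGroup.toWord_mk, FreeGroup.toWord_mk, (ph_red _ (by simp)).reduce_eq,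
      (ph_red _ (by simp)).reduce_eq, List.ofFn_inj] at h1
    funext t
    have h2 := congrArg Prod.fst (congrFun h1 t)
    cases e : f t <;> cases e' : f' t <;> simp_all
  · simp only [FreeGroup.lift_mk, List.map_ofFn, Function.comp_def, cond_true, List.ofFn_const,
      List.prod_replicate]

theorem ph_pair (hAB : S_AB) {β : Type} {v a : FreeGroup β} (h : Commute v a) :
    ∃ c, (∃ p : ℤ, v = c ^ p) ∧ ∃ q : ℤ, a = c ^ q := by
  obtain ⟨c, -, hc⟩ := hAB β (Subgroup.closure {v, a}) fun x hx y hy => by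
    refine Subgroup.closure_induction₂ (p := fun x y _ _ => Commute x y) ?_
      (fun x _ => Commute.one_left x) (fun x _ => Commute.one_right x)
      (fun _ _ _ _ _ _ h1 h2 => h1.mul_left h2) (fun _ _ _ _ _ _ h1 h2 => h1.mul_right h2)
      (fun _ _ _ _ h1 => h1.inv_left) (fun _ _ _ _ h1 => h1.inv_right) hx hy
    rintro x y (rfl | rfl) (rfl | rfl)
    exacts [Commute.refl _, h, h.symm, Commute.refl _]
  exact ⟨c, hc v (Subgroup.subset_closure (by simp)), hc a (Subgroup.subset_closure (by simp))⟩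

lemma ph_num (a L : ℕ) (x : ℝ) (hx : 0 ≤ x) (h : a + 2 * x < L) :
    (2 : ℝ) ^ a * Real.exp x < 2 ^ L := by
  have h2 := Real.log_two_gt_d9
  have e : ∀ n : ℕ, (2 : ℝ) ^ n = Real.exp (n * Real.log 2) := fun n => by
    rw [Real.exp_nat_mul, Real.exp_log two_pos]
  rw [e, e, ← Real.exp_add, Real.exp_lt_exp]
  nlinarith

theorem p_PH (hAB : S_AB) (hCNT : S_CNT) :
    S_PH := by
  classical
  intro α β γ _ _ _ g i j hij f c Λ m k e L hΛ h1 h2 h3
  obtain ⟨P, hP, hn, hd⟩ := ph_words hij L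
  let φ : (Fin L → Bool) → α → γ := fun b p => f (FreeGroup.lift g (P b) p)
  have a1 := hCNT α γ c Λ m k e (univ.image φ) hΛ fun ψ hψ => by
    obtain ⟨b, -, rfl⟩ := mem_image.1 hψ
    exact ⟨fun p => h1 _, (cn_equiv (FreeGroup.lift g (P b)) fun p => f p ≠ c).le.trans h2⟩
  have a2 := a1.trans_lt (ph_num ((k + e) * m) L (Fintype.card α / 2 ^ k) (by positivity) (by
    push_cast
    rwa [← mul_div_assoc]))
  obtain ⟨b, -, b', -, hb, hφ⟩ := exists_ne_map_eq_of_card_lt_of_maps_to (s := univ)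
    (t := univ.image φ) (f := φ) (by
      rw [card_univ, Fintype.card_fun, Fintype.card_bool, Fintype.card_fin]
      exact_mod_cast a2) fun b _ => by simp
  refine ⟨P b * (P b')⁻¹, fun p => ?_, fun hc => ?_, ?_⟩
  · have := congrFun hφ ((FreeGroup.lift g (P b'))⁻¹ p)
    simpa [φ] using this
  · obtain ⟨w, ⟨q, hq⟩, p, hp⟩ := ph_pair hAB hc
    have d1 := congrArg (fun x => (FreeGroup.lift (fun _ => Multiplicative.ofAdd (1 : ℤ)) x).toAdd) hq
    have d2 := congrArg (fun x => (FreeGroup.lift (fun _ => Multiplicative.ofAdd (1 : ℤ)) x).toAdd) hp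
    simp only [map_mul, map_inv, hd, mul_inv_cancel, toAdd_one, map_zpow, toAdd_zpow, smul_eq_mul,
      FreeGroup.lift_apply_of, toAdd_ofAdd] at d1 d2
    rcases mul_eq_zero.1 d2.symm with h | h
    · rw [h, zpow_zero, mul_inv_eq_one] at hp
      exact hb (hP hp)
    · simp [h] at d1
  · have := FreeGroup.norm_mul_le (P b) (P b')⁻¹
    rw [FreeGroup.norm_inv_eq] at this
    linarith [hn b, hn b']

end Pool.Agent.P.MP_d589a8_al.Gz

namespace Pool.Agent.P.MP_d589a8_al.Gz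

open Equiv Finset

lemma lev_cyc_apply {α : Type} [Fintype α] [DecidableEq α] (σ : Perm α) (p : α) :
    cyc σ (σ p) = cyc σ p := by
  ext q
  rw [mem_cyc, mem_cyc, Perm.sameCycle_apply_left]

lemma lev_norm_pow {β : Type} [DecidableEq β] (i : β) (ρ : ℕ) :
    (FreeGroup.of i ^ ρ).norm = ρ := by
  simp [FreeGroup.norm, FreeGroup.toWord_of_pow]

theorem p_LEV (hCYC : S_CYC) (hTREE : S_TREE) (hPH : S_PH) :
    S_LEV := by
  classical
  intro α β _ _ _ g i i' hii lev r j d k m l L hlev hr hcn hl hm hL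
  let f : α → ℕ × ℕ := fun p => (tl lev j p, if lev p = j then (cyc (g i) p).card else 0)
  let Ls : Finset ℕ := (Icc 1 (Fintype.card α)).filter
    (fun ρ => ∃ p, lev p = j ∧ (cyc (g i) p).card = ρ)
  let I : Finset (ℕ × ℕ) := Ls.image (fun ρ => (j + 1, ρ))
  let Λ : Finset (ℕ × ℕ) := I ∪ (Ioc j r).image (fun a => (a + 1, 0))
  have hI : I.card ≤ 2 ^ d := by
    refine le_trans card_image_le ?_
    rw [cn_eq] at hcn
    exact hcn
  have hΛ : Λ.card ≤ 2 ^ (d + r + 1) := by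
    refine le_trans (card_union_le _ _) ?_
    have h1 : ((Ioc j r).image (fun a => ((a + 1, 0) : ℕ × ℕ))).card ≤ r := by
      refine le_trans card_image_le ?_
      rw [Nat.card_Ioc]
      omega
    have h2 : r < 2 ^ r := Nat.lt_two_pow_self
    have h3 : 2 ^ d ≤ 2 ^ (d + r) := Nat.pow_le_pow_right (by norm_num) (by omega)
    have h4 : 2 ^ r ≤ 2 ^ (d + r) := Nat.pow_le_pow_right (by norm_num) (by omega)
    rw [pow_succ]
    omega
  have hfI : ∀ p, lev p = j → f p ∈ I := by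
    intro p hp
    refine mem_image.2 ⟨(cyc (g i) p).card, mem_filter.2 ⟨mem_Icc.2 ⟨(hCYC α (g i) p).1,
      card_le_univ _⟩, p, hp, rfl⟩, ?_⟩
    simp [f, tl, hp]
  have hge : ∀ p, f p ≠ (0, 0) → j ≤ lev p := by
    intro p hp
    by_contra h
    apply hp
    have h1 : lev p < j := not_le.1 h
    simp [f, tl, h1, h1.ne]
  have hfΛ : ∀ p, f p ≠ (0, 0) → f p ∈ Λ := by
    intro p hp
    rcases (hge p hp).eq_or_lt with h | h
    · exact mem_union_left _ (hfI p h.symm)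
    · refine mem_union_right _ (mem_image.2 ⟨lev p, mem_Ioc.2 ⟨h, hr p⟩, ?_⟩)
      simp [f, tl, h.ne', not_lt.2 h.le]
  have hcm : cn univ (fun p => f p ≠ (0, 0)) ≤ m :=
    le_trans (cn_mono fun p _ hp => hge p hp) hm
  obtain ⟨v, hv, hnc, hvn⟩ := hPH α β (ℕ × ℕ) g i i' hii f (0, 0) Λ m k (d + r + 1) L hΛ hfΛ hcm
    (by push_cast; exact hL)
  have hL1 : 1 ≤ L := by
    have h0 : (0 : ℝ) ≤ (k + (d + r + 1)) * m + 2 * Fintype.card α / 2 ^ k := by positivity
    have h1 : (0 : ℝ) < L := lt_of_le_of_lt h0 hL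
    exact_mod_cast h1
  have hx : FreeGroup.of i ∈ Pres g f := by
    rw [mem_Pres]
    intro p
    simp only [FreeGroup.lift_apply_of, f, tl, hlev, lev_cyc_apply]
  have hle : ∀ w, w ∈ Pres g f → w ∈ Pres g (tl lev j) := by
    intro w hw
    rw [mem_Pres] at hw ⊢
    intro p
    exact congrArg Prod.fst (hw p)
  obtain ⟨B, hB, hB1, hBn, hBp⟩ := hTREE α β (ℕ × ℕ) g f (FreeGroup.of i) v (2 * L) l hnc hx hv
    (by rw [FreeGroup.norm_of]; omega) hvn d I hI (by
      intro c hc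
      obtain ⟨ρ, hρ, rfl⟩ := mem_image.1 hc
      obtain ⟨hρ1, p₀, hp₀, hρ2⟩ := mem_filter.1 hρ
      have hρ3 : 1 ≤ ρ := (mem_Icc.1 hρ1).1
      refine ⟨FreeGroup.of i ^ ρ, pow_mem hx ρ, ?_, ?_, ?_⟩
      · intro h
        have := lev_norm_pow i ρ
        rw [h, FreeGroup.norm_one] at this
        omega
      · rw [lev_norm_pow, ← hρ2]
        exact hl p₀ hp₀
      · intro p hp
        have h2 : (if lev p = j then (cyc (g i) p).card else 0) = ρ := congrArg Prod.snd hp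
        have h3 : (cyc (g i) p).card = ρ := by
          split_ifs at h2 with h
          · exact h2
          · omega
        rw [map_pow, FreeGroup.lift_apply_of, ← h3]
        exact (hCYC α (g i) p).2.1 p (mem_cyc.2 (Perm.SameCycle.refl _ _)))
  refine ⟨B, v, 2 * L, hle B hB, hle v hv, hnc, hB1, by omega, hvn, ?_,
    fun p hp => hBp p (hfI p hp)⟩
  have h1 : 4 ^ d * (2 * l + 20 * L) = 2 * (4 ^ d * (l + 3 * (2 * L))) + 4 ^ d * (8 * L) := by
    ring
  rw [h1]
  omega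

end Pool.Agent.P.MP_d589a8_al.Gz

namespace Pool.Agent.P.MP_d589a8_al.Gz

open Equiv Finset

theorem p_LA (hLEV : S_LEV) :
    S_LA := by
  intro α β _ _ _ g i i' hi lev r j t hn hlev hr hc
  have hd : 2 ^ t * (16 * 2 ^ t + 1) ≤ 2 ^ (2 * t + 5) := by
    have h1 : 1 ≤ 2 ^ t := Nat.one_le_two_pow
    rw [pow_add, mul_comm 2 t, pow_mul]
    nlinarith
  have hn' : (0 : ℝ) < Fintype.card α := by exact_mod_cast hn
  obtain ⟨B, v, L, h1, h2, h3, h4, h5, h6, h7, h8⟩ :=
    hLEV α β g i i' hi lev r j (2 * t + 5) 0 (Fintype.card α) (Fintype.card α)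
      ((2 * t + 9 + r) * Fintype.card α) hlev hr (hc.trans hd) (fun p _ => card_le_univ _)
      (cn_le _ _) (by push_cast; nlinarith)
  refine ⟨B, v, L, h1, h2, h3, h4, h5, h6, h7.trans ?_, h8⟩
  have h9 : 2 + 20 * (2 * t + 9 + r) ≤ 22 * (2 * t + 9) * (r + 1) := by nlinarith
  calc 4 ^ (2 * t + 5) * (2 * Fintype.card α + 20 * ((2 * t + 9 + r) * Fintype.card α))
      = 4 ^ (2 * t + 5) * (2 + 20 * (2 * t + 9 + r)) * Fintype.card α := by ring
    _ ≤ 4 ^ (2 * t + 5) * (22 * (2 * t + 9) * (r + 1)) * Fintype.card α := by gcongr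
    _ = _ := by ring

end Pool.Agent.P.MP_d589a8_al.Gz

namespace Pool.Agent.P.MP_d589a8_al.Gz

open Equiv Finset

lemma lb_pow (t : ℕ) (ht : 2 ≤ t) : 1024 * (340 * t + 162) ≤ 2 ^ (11 * t) := by
  induction t, ht using Nat.le_induction with
  | base => norm_num
  | succ t _ ih =>
    rw [Nat.mul_succ 11, pow_add]
    omega

lemma lb_num {U G t r n m l q : ℕ} (hU : 0 < U) (hG : 1024 * (340 * t + 162) ≤ G)
    (hm : U * G * m ≤ n) (hl : U * G * l ≤ n) (hq : U * G * q ≤ 2 * n) (hn : 4096 * U ≤ n) :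
    1024 * U * (2 * l + 20 * ((17 * t + 6 + r) * m + q + 1)) ≤ 6 * (r + 1) * n := by
  refine Nat.le_of_mul_le_mul_left ?_ (Nat.mul_pos hU (show 0 < G by omega))
  have h2 : 1024 * (340 * t + 162 + 20 * r) ≤ G * (r + 1) := by nlinarith
  calc _ = 1024 * U * (2 * (U * G * l) + 20 * ((17 * t + 6 + r) * (U * G * m) + U * G * q)) +
        U * G * (5 * (4096 * U)) := by ring
    _ ≤ 1024 * U * (2 * n + 20 * ((17 * t + 6 + r) * n + 2 * n)) + U * G * (5 * n) := by gcongr
    _ = U * n * (1024 * (340 * t + 162 + 20 * r)) + U * G * (5 * n) := by ring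
    _ ≤ U * n * (G * (r + 1)) + U * G * (5 * n * (r + 1)) :=
        add_le_add (Nat.mul_le_mul_left _ h2)
          (Nat.mul_le_mul_left _ (Nat.le_mul_of_pos_right _ r.succ_pos))
    _ = _ := by ring

theorem p_LB (hLEV : S_LEV) :
    S_LB := by
  intro α β _ _ _ g i i' hi lev r j t ht h1 h2 h3 h4 h5 h6
  have e : 2 ^ (15 * t) = (2 ^ t) ^ 4 * 2 ^ (11 * t) := by ring
  obtain ⟨B, v, L, k1, k2, k3, k4, k5, k6, k7, k8⟩ := hLEV α β g i i' hi lev r j (2 * t + 5)
    (15 * t) _ (Fintype.card α / 2 ^ (16 * t)) ((17 * t + 6 + r) * cn univ (fun p => j ≤ lev p) +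
      2 * Fintype.card α / 2 ^ (15 * t) + 1) h1 h2
    (h3.trans (by have := Nat.one_le_two_pow (n := t); rw [pow_add, pow_mul']; nlinarith))
    (fun p hp => (Nat.le_div_iff_mul_le (by positivity)).2 (by rw [mul_comm]; exact h4 p hp))
    le_rfl (by
      have : ((2 * Fintype.card α : ℕ) : ℝ) <
          (2 ^ (15 * t) * (2 * Fintype.card α / 2 ^ (15 * t) + 1) : ℕ) :=
        Nat.cast_lt.2 (Nat.lt_mul_div_succ _ (by positivity))
      rw [Nat.cast_mul _ (_ + 1), ← div_lt_iff₀' (by positivity)] at this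
      push_cast at this ⊢
      linarith)
  refine ⟨B, v, L, k1, k2, k3, k4, k5, k6, k7.trans (le_of_eq_of_le ?_
    (lb_num (U := (2 ^ t) ^ 4) (by positivity) (lb_pow t ht) (e ▸ h5) (e ▸ le_trans
      (Nat.mul_le_mul_right _ (Nat.pow_le_pow_right two_pos (show 15 * t ≤ 16 * t by omega)))
      (Nat.mul_div_le _ (2 ^ (16 * t)))) (e ▸ Nat.mul_div_le _ (2 ^ (15 * t))) h6)), k8⟩
  rw [← e, show 4 ^ (2 * t + 5) = (2 ^ 2) ^ (2 * t + 5) from rfl, ← pow_mul 2 2]
  congr 1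
  ring

end Pool.Agent.P.MP_d589a8_al.Gz

namespace Pool.Agent.P.MP_d589a8_al.Gz

open Equiv Finset

lemma detb_three (r : ℕ) : (r + 1) * 2 ^ r ≤ 2 * 3 ^ r := by
  induction r with
  | zero => simp
  | succ r ih =>
    rcases Nat.eq_zero_or_pos r with rfl | hr
    · norm_num
    · have h : (r + 1 + 1) * 2 ≤ 3 * (r + 1) := by omega
      calc (r + 1 + 1) * 2 ^ (r + 1) = (r + 1 + 1) * 2 * 2 ^ r := by ring
        _ ≤ 3 * (r + 1) * 2 ^ r := Nat.mul_le_mul_right _ h
        _ = 3 * ((r + 1) * 2 ^ r) := by ring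
        _ ≤ 3 * (2 * 3 ^ r) := Nat.mul_le_mul_left _ ih
        _ = 2 * 3 ^ (r + 1) := by ring

lemma detb_mono {α β : Type} [Fintype α] [DecidableEq α] [DecidableEq β] {g : β → Perm α}
    {i : β} {lev : α → ℕ} {j c c' : ℕ} (h : Lv g i lev j c) (hc : c ≤ c') :
    Lv g i lev j c' := by
  obtain ⟨B, v, L, h1, h2, h3, h4, h5, h6, h7, h8⟩ := h
  exact ⟨B, v, L, h1, h2, h3, h4, h5, h6, h7.trans hc, h8⟩

theorem p_DETB (hLA : S_LA) (hLB : S_LB) (hCOMB : S_COMB) (hPIG : S_PIG) :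
    S_DETB := by
  intro α β _ _ _ g i i' hii τ r hτ h2 hr hn hlog hbig hT
  classical
  have hmono : Monotone τ := monotone_nat_of_le_succ fun j => by
    rw [hτ]; exact Nat.lt_two_pow_self.le
  have hcyc : ∀ p, cyc (g i) (g i p) = cyc (g i) p := by
    intro p
    ext q
    simp only [mem_cyc, Perm.sameCycle_apply_left]
  let lev : α → ℕ := fun p =>
    Nat.findGreatest (fun j => 2 ^ (16 * τ j) * (cyc (g i) p).card ≤ Fintype.card α) r
  have hinv : ∀ p, lev (g i p) = lev p := fun p => by simp only [lev, hcyc]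
  have hle : ∀ p, lev p ≤ r := fun p => Nat.findGreatest_le r
  have hlo : ∀ p j, 1 ≤ j → j ≤ lev p →
      2 ^ (16 * τ j) * (cyc (g i) p).card ≤ Fintype.card α := by
    intro p j h1 hj
    have h3 : 2 ^ (16 * τ (lev p)) * (cyc (g i) p).card ≤ Fintype.card α :=
      Nat.findGreatest_of_ne_zero (P := fun j =>
        2 ^ (16 * τ j) * (cyc (g i) p).card ≤ Fintype.card α) (n := r) rfl
        (by change lev p ≠ 0; omega)
    refine le_trans (Nat.mul_le_mul_right _ (Nat.pow_le_pow_right two_pos ?_)) h3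
    exact Nat.mul_le_mul_left _ (hmono hj)
  have hhi : ∀ p j, j < r → lev p = j →
      Fintype.card α < 2 ^ (16 * τ (j + 1)) * (cyc (g i) p).card := by
    intro p j hj h
    exact not_le.1 (Nat.findGreatest_is_greatest (P := fun j =>
      2 ^ (16 * τ j) * (cyc (g i) p).card ≤ Fintype.card α) (n := r) (k := j + 1)
      (by change lev p < j + 1; omega) hj)
  have hlen : ∀ j < r, cn (Icc 1 (Fintype.card α))
      (fun ρ => ∃ p, lev p = j ∧ (cyc (g i) p).card = ρ) ≤ 2 ^ τ j * (16 * 2 ^ τ j + 1) := by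
    intro j hj
    rw [← hτ]
    refine le_trans (cn_mono ?_) (hT.1 j hj)
    rintro ρ _ ⟨p, hp, rfl⟩
    exact ⟨hhi p j hj hp, p, rfl⟩
  have hU : ∀ j, 1 ≤ j → j ≤ r →
      2 ^ (15 * τ j) * cn univ (fun p => j ≤ lev p) ≤ Fintype.card α := by
    intro j h1 hj
    exact le_trans (Nat.mul_le_mul_left _ (cn_mono fun p _ hp => hlo p j h1 hp)) (hT.2 j h1 hj)
  obtain ⟨A, hA⟩ : ∃ A, A = 4 ^ (2 * τ 0 + 5) * 22 * (2 * τ 0 + 9) := ⟨_, rfl⟩
  have hA6 : 6 ≤ A := by
    have : 0 < 4 ^ (2 * τ 0 + 5) := by positivity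
    rw [hA]
    nlinarith
  have hLv : ∀ j < r, Lv g i lev j (A * (r + 1) * Fintype.card α) := by
    intro j hj
    rcases Nat.eq_zero_or_pos j with rfl | h1
    · rw [hA]
      exact hLA α β g i i' hii lev r 0 (τ 0) hn hinv hle (hlen 0 hj)
    · refine detb_mono (hLB α β g i i' hii lev r j (τ j) (h2.trans (hmono (Nat.zero_le j)))
        hinv hle (hlen j hj) (fun p hp => hlo p j h1 hp.ge) (hU j h1 hj.le) ?_) ?_
      · rw [← hτ]
        exact hbig j h1 hj
      · exact Nat.mul_le_mul_right _ (Nat.mul_le_mul_right _ hA6)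
  obtain ⟨W, hW, hWn, hWt⟩ := hCOMB α β g i lev r _ hinv hLv
  have hs : 2 ^ (15 * τ r) * (FreeGroup.lift g W).support.card ≤ Fintype.card α := by
    refine le_trans (Nat.mul_le_mul_left _ ?_) (hU r hr le_rfl)
    rw [cn_eq]
    refine card_le_card fun p hp => mem_filter.2 ⟨mem_univ _, ?_⟩
    by_contra hc
    exact Perm.mem_support.1 hp (hWt p (by omega))
  have hlt : Fintype.card α ^ (2 * (FreeGroup.lift g W).support.card) < 2 ^ Fintype.card α := by
    have b1 : Fintype.card α ≤ 2 ^ (Nat.log 2 (Fintype.card α) + 1) :=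
      (Nat.lt_pow_succ_log_self one_lt_two _).le
    refine lt_of_le_of_lt (Nat.pow_le_pow_left b1 _) ?_
    rw [← pow_mul]
    refine Nat.pow_lt_pow_right one_lt_two ?_
    rw [hτ] at hlog
    have b0 : 0 < 2 ^ τ r := by positivity
    have b2 : (Nat.log 2 (Fintype.card α) + 1) * (2 * (FreeGroup.lift g W).support.card) ≤
        (2 * 2 ^ τ r) * (2 * (FreeGroup.lift g W).support.card) :=
      Nat.mul_le_mul_right _ (by omega)
    have b3 : 8 * 2 ^ τ r ≤ 2 ^ (15 * τ r) := by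
      have := h2.trans (hmono (Nat.zero_le r))
      calc 8 * 2 ^ τ r = 2 ^ (τ r + 3) := by ring
        _ ≤ _ := Nat.pow_le_pow_right two_pos (by omega)
    have b4 := (Nat.mul_le_mul_right _ b3).trans hs
    generalize (FreeGroup.lift g W).support.card = s at *
    generalize 2 ^ τ r = N at *
    nlinarith
  obtain ⟨w, hw, n2, hw1⟩ := hPIG α β g i i' hii _ W hn hW hlt
  refine ⟨w, hw, hw1, n2.trans ?_⟩
  rw [← hA]
  clear hlt hs hLv hU hlen hhi hlo hT hbig hlog
  generalize Fintype.card α = n at *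
  have c1 := detb_three r
  have c2 : 0 < 3 ^ r := by positivity
  have c3 : 1 ≤ A * (r + 1) * n := Nat.mul_pos (Nat.mul_pos (by omega) (by omega)) hn
  have c4 : W.norm ≤ 2 * A * n * ((r + 1) * 2 ^ r) := by
    calc W.norm ≤ 2 ^ r * (1 + A * (r + 1) * n) := hWn
      _ ≤ 2 ^ r * (A * (r + 1) * n + A * (r + 1) * n) := Nat.mul_le_mul_left _ (by omega)
      _ = _ := by ring
  have c5 : W.norm ≤ 4 * (A * 3 ^ r * n) :=
    c4.trans ((Nat.mul_le_mul_left _ c1).trans (le_of_eq (by ring)))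
  have c6 : n ≤ A * 3 ^ r * n := Nat.le_mul_of_pos_left _ (Nat.mul_pos (by omega) c2)
  have c7 : 16 * A * 3 ^ r * n = 16 * (A * 3 ^ r * n) := by ring
  omega

end Pool.Agent.P.MP_d589a8_al.Gz

namespace Pool.Agent.P.MP_d589a8_al.Gz

open Equiv Finset

lemma par_mono : Monotone tw := by
  refine monotone_nat_of_le_succ fun r => ?_
  rw [tw_succ]
  exact (Nat.lt_two_pow_self).le

lemma par_gr : ∃ m : ℕ, ∀ k : ℕ, m ≤ k → 4096 * k ^ 4 ≤ 2 ^ k := by
  have h := (tendsto_pow_const_div_const_pow_of_one_lt 4 (one_lt_two (α := ℝ))).const_mul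
    (4096 : ℝ)
  rw [mul_zero] at h
  have h2 := h.eventually (gt_mem_nhds (zero_lt_one (α := ℝ)))
  obtain ⟨m, hm⟩ := Filter.eventually_atTop.1 h2
  refine ⟨m, fun k hk => ?_⟩
  have h3 := hm k hk
  have h4 : (0 : ℝ) < 2 ^ k := by positivity
  rw [← mul_div_assoc, div_lt_one h4] at h3
  exact_mod_cast h3.le

theorem p_PAR :
    S_PAR := by
  classical
  intro s
  obtain ⟨m, hm⟩ := par_gr
  refine ⟨2 ^ (m + 1), fun n R hn hR => ?_⟩
  have hlog : m + 1 ≤ Nat.log 2 n := Nat.le_log_of_pow_le one_lt_two hn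
  have hn0 : n ≠ 0 := by
    have : 0 < 2 ^ (m + 1) := by positivity
    omega
  have hpow : 2 ^ Nat.log 2 n ≤ n := Nat.pow_log_le_self 2 hn0
  have hg : 4096 * Nat.log 2 n ^ 4 ≤ n := (hm _ (by omega)).trans hpow
  have hn2 : 2 ≤ n := by
    have : 2 ^ 1 ≤ 2 ^ (m + 1) := Nat.pow_le_pow_right (by norm_num) (by omega)
    omega
  have hR1 : 1 ≤ R := by
    rcases Nat.eq_zero_or_pos R with h | h
    · subst h
      have : tw 0 = 1 := rfl
      omega
    · exact h
  have hwit : 1 ≤ R ∧ Nat.log 2 n ≤ tw (R + 1 + s) := by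
    refine ⟨hR1, ?_⟩
    have h1 : Nat.log 2 n ≤ n := Nat.log_le_self 2 n
    have h2 : tw R ≤ tw (R + 1 + s) := par_mono (by omega)
    omega
  have hex : ∃ r, 1 ≤ r ∧ Nat.log 2 n ≤ tw (r + 1 + s) := ⟨R, hwit⟩
  refine ⟨Nat.find hex, (Nat.find_spec hex).1, Nat.find_min' hex hwit, (Nat.find_spec hex).2,
    fun j hj hjr => ?_⟩
  have h1 := Nat.find_min hex hjr
  have h2 : tw (j + 1 + s) ≤ Nat.log 2 n := by
    by_contra hc
    exact h1 ⟨hj, by omega⟩
  calc 4096 * tw (j + 1 + s) ^ 4 ≤ 4096 * Nat.log 2 n ^ 4 :=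
        Nat.mul_le_mul_left _ (Nat.pow_le_pow_left h2 4)
    _ ≤ n := hg

end Pool.Agent.P.MP_d589a8_al.Gz

namespace Pool.Agent.P.MP_d589a8_al.Gz

open Equiv Finset

lemma snb_lt_tw (k : ℕ) : k < tw k := by
  induction k with
  | zero => simp [tw]
  | succ k ih =>
    rw [tw_succ]
    exact lt_of_le_of_lt ih Nat.lt_two_pow_self

theorem p_SNB (hDETB : S_DETB) (hTYP : S_TYP) (hPAR : S_PAR) :
    S_SNB := by
  intro η hη
  obtain ⟨s, hs⟩ := exists_nat_ge (4 / η + 1)
  have hs0 : (0 : ℝ) < 4 / η := by positivity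
  have hs1 : 1 ≤ s := by
    have : (1 : ℝ) ≤ s := by linarith
    exact_mod_cast this
  obtain ⟨n₀, hn₀⟩ := hPAR s
  set τ : ℕ → ℕ := fun j => tw (j + s) with hτ
  have hτs : ∀ j, τ (j + 1) = 2 ^ τ j := fun j => by
    simp only [hτ]
    rw [show j + 1 + s = (j + s) + 1 by ring, tw_succ]
  have hτ0 : 2 ≤ τ 0 := by
    have := snb_lt_tw (0 + s)
    simp only [hτ]
    omega
  refine ⟨16 * (4 ^ (2 * τ 0 + 5) * 22 * (2 * τ 0 + 9)), max 1 n₀, ?_⟩
  intro α β _ _ _ R hn hR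
  obtain ⟨r, hr1, hrR, hlog, hj⟩ := hn₀ _ R (le_trans (le_max_right _ _) hn) hR
  have hpos : 0 < Fintype.card α := lt_of_lt_of_le Nat.one_pos (le_trans (le_max_left _ _) hn)
  have h1 : cn univ (fun x : Perm α => ∃ (g : β → Perm α) (i i' : β), i ≠ i' ∧ g i = x ∧
        ∀ w : FreeGroup β, w ≠ 1 →
          w.norm ≤ 16 * (4 ^ (2 * τ 0 + 5) * 22 * (2 * τ 0 + 9)) * 3 ^ R * Fintype.card α →
          FreeGroup.lift g w ≠ 1) ≤ cn univ (fun σ : Perm α => ¬ Typ τ r σ) := by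
    refine cn_mono fun x _ => ?_
    rintro ⟨g, i, i', hii, rfl, hw⟩ hT
    obtain ⟨w, hw1, hw2, hw3⟩ := hDETB α β g i i' hii τ r hτs hτ0 hr1 hpos hlog hj hT
    refine hw w hw1 (hw3.trans ?_) hw2
    exact Nat.mul_le_mul_right _ (Nat.mul_le_mul_left _ (Nat.pow_le_pow_right (by norm_num) hrR))
  have h2 := hTYP α τ r hτs
  have h3 : (4 / η : ℝ) ≤ τ 1 := by
    have h4 : s ≤ τ 1 := by
      have := snb_lt_tw (1 + s)
      simp only [hτ]
      omega
    have h5 : (s : ℝ) ≤ τ 1 := by exact_mod_cast h4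
    linarith
  have h2' : (τ 1 : ℝ) * cn univ (fun σ : Perm α => ¬ Typ τ r σ) ≤
      4 * (Fintype.card α).factorial := by exact_mod_cast h2
  refine le_trans (Nat.cast_le.2 h1) ?_
  have h6 : (4 / η : ℝ) * cn univ (fun σ : Perm α => ¬ Typ τ r σ) ≤
      4 * (Fintype.card α).factorial :=
    le_trans (mul_le_mul_of_nonneg_right h3 (Nat.cast_nonneg _)) h2'
  rw [div_mul_eq_mul_div, div_le_iff₀ hη] at h6
  linarith

end Pool.Agent.P.MP_d589a8_al.Gz

namespace Pool.Agent.P.MP_d589a8_al.Gz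

open Equiv Finset

lemma mainb_card {n : ℕ} (hn : 2 ≤ n) :
    n.factorial = 2 * Nat.card (alternatingGroup (Fin n)) := by
  have : Nontrivial (Fin n) := Fin.nontrivial_iff_two_le.2 hn
  rw [Nat.card_eq_fintype_card, two_mul_card_alternatingGroup, Fintype.card_perm,
    Fintype.card_fin]

lemma mainb_lift {β H : Type} [Group H] (G : Subgroup H) (g : β → G) (w : FreeGroup β) :
    FreeGroup.lift (fun t => (g t : H)) w = (FreeGroup.lift g w : G) := by
  have : FreeGroup.lift (fun t => (g t : H)) = G.subtype.comp (FreeGroup.lift g) := by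
    ext t
    simp
  rw [this]
  rfl

lemma mainb_inj {H : Type} [Group H] [Fintype H] (G : Subgroup H)
    (P : G → Prop) (Q : H → Prop) (h : ∀ g, P g → Q g) :
    Nat.card {g // P g} ≤ cn univ Q := by
  classical
  have e : cn univ Q = Nat.card {x // Q x} := by
    rw [cn_eq, Nat.card_eq_fintype_card (α := {x // Q x}), Fintype.card_subtype]
  rw [e]
  refine Nat.card_le_card_of_injective (fun g => ⟨g.1, h g.1 g.2⟩) fun g g' hg => ?_
  simp only [Subtype.mk.injEq, SetLike.coe_eq_coe] at hg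
  exact Subtype.ext hg

theorem p_MAINB (hSNB : S_SNB) :
    S_MAINB := by
  intro η hη
  obtain ⟨C, n₀, H⟩ := hSNB (η / 2) (by positivity)
  refine ⟨C, max n₀ 2, fun m hm n hn R hR => ?_⟩
  have h1 := H (Fin n) (Fin m) R (by simpa using le_of_max_le_left hn)
    (by rw [Fintype.card_fin]; exact hR)
  simp only [Fintype.card_fin] at h1
  have h2 : (n.factorial : ℝ) = 2 * Nat.card (alternatingGroup (Fin n)) := by
    exact_mod_cast mainb_card (le_of_max_le_right hn)
  have : Nontrivial (Fin m) := Fin.nontrivial_iff_two_le.2 hm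
  refine (Nat.cast_le.2 (mainb_inj _ _ _ fun x hx => ?_)).trans (h1.trans ?_)
  · obtain ⟨g, ⟨i, hi⟩, hg⟩ := hx
    obtain ⟨i', hi'⟩ := exists_ne i
    refine ⟨fun t => g t, i, i', hi'.symm, by simp only [hi], fun w hw hn h0 => hg w hw hn ?_⟩
    rw [mainb_lift] at h0
    exact Subtype.ext h0
  · rw [h2]
    exact le_of_eq (by ring)

end Pool.Agent.P.MP_d589a8_al.Gz
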