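import Pool.Agent.P.MP_d589a8_al.Gw.Free
import Pool.Agent.P.MP_d589a8_al.Gw.Count
import Pool.Agent.P.MP_d589a8_al.Gw.Level

/-! Assembly. -/

namespace Pool.Agent.P.MP_d589a8_al.Gz

theorem all_CYC : S_CYC := p_CYC
theorem all_AB : S_AB := p_AB
theorem all_CT : S_CT := p_CT all_AB
theorem all_NCB : S_NCB := p_NCB all_AB all_CT
theorem all_JOIN : S_JOIN := p_JOIN all_NCB
theorem all_TREE : S_TREE := p_TREE all_JOIN
theorem all_CNT : S_CNT := p_CNT
theorem all_PH : S_PH := p_PH all_AB all_CNT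
theorem all_LEV : S_LEV := p_LEV all_CYC all_TREE all_PH
theorem all_LA : S_LA := p_LA all_LEV
theorem all_LB : S_LB := p_LB all_LEV
theorem all_COMB : S_COMB := p_COMB all_JOIN
theorem all_NC : S_NC := p_NC all_AB all_CT
theorem all_PIG : S_PIG := p_PIG all_CT all_NC
theorem all_DETB : S_DETB := p_DETB all_LA all_LB all_COMB all_PIG
theorem all_STEP : S_STEP := p_STEP
theorem all_LEN : S_LEN := p_LEN all_STEP all_CYC
theorem all_PU : S_PU := p_PU all_LEN all_CYC
theorem all_PT : S_PT := p_PT all_LEN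
theorem all_TYP : S_TYP := p_TYP all_PU all_PT
theorem all_PAR : S_PAR := p_PAR
theorem all_SNB : S_SNB := p_SNB all_DETB all_TYP all_PAR
theorem all_MAINB : S_MAINB := p_MAINB all_SNB

end Pool.Agent.P.MP_d589a8_al.Gz
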