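import Pool.Agent.P.MP_d589a8_al.Gw.Iface

/-! Steps AB, CT, NC, NCB, JOIN, TREE, COMB, PIG. -/

set_option linter.unusedSectionVars false

namespace Pool.Agent.P.MP_d589a8_al.Gz

open Equiv Finset

theorem ab_free {γ : Type} (h : ∀ a b : FreeGroup γ, Commute a b) :
    ∃ c : FreeGroup γ, ∀ a, ∃ z : ℤ, a = c ^ z := by
  classical
  have hs : ∀ x y : γ, x = y := fun x y => by
    by_contra e
    have := (h (FreeGroup.of x) (FreeGroup.of y)).map
      (FreeGroup.lift fun t => if t = x then swap (0 : Fin 3) 1 else swap 1 2)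
    rw [FreeGroup.lift_apply_of, FreeGroup.lift_apply_of, if_pos rfl, if_neg (Ne.symm e)] at this
    exact absurd this.eq (by decide)
  obtain ⟨c, hc⟩ : ∃ c : FreeGroup γ, ∀ x, FreeGroup.of x = c := by
    rcases isEmpty_or_nonempty γ with e | ⟨⟨x⟩⟩
    · exact ⟨1, fun x => isEmptyElim x⟩
    · exact ⟨FreeGroup.of x, fun y => by rw [hs x y]⟩
  refine ⟨c, fun a => ?_⟩
  have : a ∈ Subgroup.zpowers c := by
    induction a using FreeGroup.induction_on with
    | C1 => exact one_mem _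
    | of x => rw [hc]; exact Subgroup.mem_zpowers c
    | inv_of x hx => exact inv_mem hx
    | mul x y hx hy => exact mul_mem hx hy
  obtain ⟨z, hz⟩ := Subgroup.mem_zpowers_iff.1 this
  exact ⟨z, hz.symm⟩

theorem p_AB :
    S_AB := by
  intro β H h
  let e := IsFreeGroup.toFreeGroup H
  obtain ⟨c, hc⟩ := ab_free (γ := IsFreeGroup.Generators H) fun a b => by
    have : Commute (e.symm a) (e.symm b) := Subtype.ext (h _ (e.symm a).2 _ (e.symm b).2).eq
    simpa using this.map e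
  refine ⟨e.symm c, (e.symm c).2, fun a ha => ?_⟩
  obtain ⟨z, hz⟩ := hc (e ⟨a, ha⟩)
  refine ⟨z, ?_⟩
  have := congrArg (fun t => ((e.symm t : H) : FreeGroup β)) hz
  simpa using this

end Pool.Agent.P.MP_d589a8_al.Gz

namespace Pool.Agent.P.MP_d589a8_al.Gz

open Equiv Finset

theorem ct_root {β : Type} {x y : FreeGroup β} {k : ℤ} (hk : k ≠ 0) (h : Commute (x ^ k) y) :
    Commute x y := by
  have e : (y * x * y⁻¹) ^ k = x ^ k := by
    rw [conj_zpow, ← h.eq, mul_inv_cancel_right]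
  have := zpow_left_injective hk e
  exact (mul_inv_eq_iff_eq_mul.1 this).symm

theorem ct_pair (hAB : S_AB) {β : Type} {v a : FreeGroup β} (h : Commute v a) :
    ∃ c, (∃ p : ℤ, v = c ^ p) ∧ ∃ q : ℤ, a = c ^ q := by
  obtain ⟨c, -, hc⟩ := hAB β (Subgroup.closure {v, a}) fun x hx y hy => by
    refine Subgroup.closure_induction₂ (p := fun x y _ _ => Commute x y) ?_
      (fun x _ => Commute.one_left x) (fun x _ => Commute.one_right x)
      (fun _ _ _ _ _ _ h1 h2 => h1.mul_left h2) (fun _ _ _ _ _ _ h1 h2 => h1.mul_right h2)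
      (fun _ _ _ _ h1 => h1.inv_left) (fun _ _ _ _ h1 => h1.inv_right) hx hy
    rintro x y (rfl | rfl) (rfl | rfl)
    exacts [Commute.refl _, h, h.symm, Commute.refl _]
  exact ⟨c, hc v (Subgroup.subset_closure (by simp)), hc a (Subgroup.subset_closure (by simp))⟩

theorem p_CT (hAB : S_AB) :
    S_CT := by
  intro β a b v hv h1 h2
  obtain ⟨c, ⟨p, hp⟩, q, rfl⟩ := ct_pair hAB h1
  obtain ⟨d, ⟨p', hp'⟩, q', rfl⟩ := ct_pair hAB h2
  have p0 : p ≠ 0 := fun e => hv (by rw [hp, e, zpow_zero])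
  refine (ct_root p0 ?_).zpow_zpow q q'
  rw [← hp, hp']
  exact (Commute.refl d).zpow_left p'

end Pool.Agent.P.MP_d589a8_al.Gz

namespace Pool.Agent.P.MP_d589a8_al.Gz

open Equiv Finset

theorem nc_conj {G : Type} [Group G] {x y : G} (h : Commute x y) (g : G) :
    Commute (g * x * g⁻¹) (g * y * g⁻¹) := by
  simpa using h.map (MulAut.conj g)

theorem nc_mal (hAB : S_AB) (hCT : S_CT) {β : Type} {a g : FreeGroup β} (ha : a ≠ 1)
    (h : Commute a (g * a * g⁻¹)) : Commute a g := by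
  have mem : ∀ x, x ∈ Subgroup.centralizer {a} ↔ Commute a x := fun x =>
    Subgroup.mem_centralizer_singleton_iff.trans ⟨fun e => e.symm, fun e => e.symm⟩
  obtain ⟨c, hc, hz⟩ := hAB β (Subgroup.centralizer {a}) fun x hx y hy =>
    hCT β x y a ha ((mem x).1 hx) ((mem y).1 hy)
  rw [mem] at hc
  obtain ⟨k, hk⟩ := hz a ((mem a).2 (Commute.refl a))
  have hc1 : c ≠ 1 := fun e => ha (by rw [hk, e, one_zpow])
  have hb : g * a * g⁻¹ ≠ 1 := fun e => ha (by simpa using e)
  obtain ⟨p, hp⟩ := hz (g * c * g⁻¹) ((mem _).2 (hCT β _ _ _ hb h.symm (nc_conj hc g)))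
  obtain ⟨q, hq⟩ := hz (g⁻¹ * c * g⁻¹⁻¹) ((mem _).2 (by
    simpa [mul_assoc] using nc_conj (hCT β _ _ _ ha h hc) g⁻¹))
  have h1 : c ^ (p * q) = c ^ (1 : ℤ) := by
    rw [zpow_mul, ← hp, conj_zpow, ← hq]
    group
  have h2 : p * q = 1 :=
    injective_zpow_iff_not_isOfFinOrder.2 (not_isOfFinOrder_of_isMulTorsionFree hc1) h1
  have h3 : Commute c g := by
    rcases Int.eq_one_or_neg_one_of_mul_eq_one h2 with rfl | rfl
    · rw [zpow_one, mul_inv_eq_iff_eq_mul] at hp
      exact hp.symm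
    · rw [zpow_neg_one, mul_inv_eq_iff_eq_mul] at hp
      have h4 : (c * g * c⁻¹) ^ 2 = g ^ 2 := by
        have e : g * c⁻¹ = c * g := by
          rw [mul_inv_eq_iff_eq_mul, mul_assoc, hp, mul_inv_cancel_left]
        rw [conj_pow, sq, mul_assoc, mul_assoc, e, ← mul_assoc g, hp]
        group
      exact mul_inv_eq_iff_eq_mul.1 (pow_left_injective two_ne_zero h4)
  rw [hk]
  exact h3.zpow_left k

theorem p_NC (hAB : S_AB) (hCT : S_CT) :
    S_NC := by
  classical
  intro β i j hij a ha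
  by_contra hc
  push Not at hc
  have h := (hCT β _ _ a ha (nc_mal hAB hCT ha (hc _ (Or.inl rfl)))
    (nc_mal hAB hCT ha (hc _ (Or.inr rfl)))).map
    (FreeGroup.lift fun x => if x = i then swap (0 : Fin 3) 1 else swap 1 2)
  rw [FreeGroup.lift_apply_of, FreeGroup.lift_apply_of, if_pos rfl, if_neg hij.symm] at h
  exact absurd h.eq (by decide)

end Pool.Agent.P.MP_d589a8_al.Gz

namespace Pool.Agent.P.MP_d589a8_al.Gz

open Equiv Finset

theorem ncb_conj {G : Type} [Group G] {x y : G} (h : Commute x y) (g : G) :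
    Commute (g * x * g⁻¹) (g * y * g⁻¹) := by
  simpa using h.map (MulAut.conj g)

theorem ncb_mal (hAB : S_AB) (hCT : S_CT) {β : Type} {a g : FreeGroup β} (ha : a ≠ 1)
    (h : Commute a (g * a * g⁻¹)) : Commute a g := by
  have mem : ∀ x, x ∈ Subgroup.centralizer {a} ↔ Commute a x := fun x =>
    Subgroup.mem_centralizer_singleton_iff.trans ⟨fun e => e.symm, fun e => e.symm⟩
  obtain ⟨c, hc, hz⟩ := hAB β (Subgroup.centralizer {a}) fun x hx y hy =>
    hCT β x y a ha ((mem x).1 hx) ((mem y).1 hy)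
  rw [mem] at hc
  obtain ⟨k, hk⟩ := hz a ((mem a).2 (Commute.refl a))
  have hc1 : c ≠ 1 := fun e => ha (by rw [hk, e, one_zpow])
  have hb : g * a * g⁻¹ ≠ 1 := fun e => ha (by simpa using e)
  obtain ⟨p, hp⟩ := hz (g * c * g⁻¹) ((mem _).2 (hCT β _ _ _ hb h.symm (ncb_conj hc g)))
  obtain ⟨q, hq⟩ := hz (g⁻¹ * c * g⁻¹⁻¹) ((mem _).2 (by
    simpa [mul_assoc] using ncb_conj (hCT β _ _ _ ha h hc) g⁻¹))
  have h1 : c ^ (p * q) = c ^ (1 : ℤ) := by
    rw [zpow_mul, ← hp, conj_zpow, ← hq]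
    group
  have h2 : p * q = 1 :=
    injective_zpow_iff_not_isOfFinOrder.2 (not_isOfFinOrder_of_isMulTorsionFree hc1) h1
  have h3 : Commute c g := by
    rcases Int.eq_one_or_neg_one_of_mul_eq_one h2 with rfl | rfl
    · rw [zpow_one, mul_inv_eq_iff_eq_mul] at hp
      exact hp.symm
    · rw [zpow_neg_one, mul_inv_eq_iff_eq_mul] at hp
      have h4 : (c * g * c⁻¹) ^ 2 = g ^ 2 := by
        have e : g * c⁻¹ = c * g := by
          rw [mul_inv_eq_iff_eq_mul, mul_assoc, hp, mul_inv_cancel_left]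
        rw [conj_pow, sq, mul_assoc, mul_assoc, e, ← mul_assoc g, hp]
        group
      exact mul_inv_eq_iff_eq_mul.1 (pow_left_injective two_ne_zero h4)
  rw [hk]
  exact h3.zpow_left k

theorem p_NCB (hAB : S_AB) (hCT : S_CT) :
    S_NCB := by
  intro β x v A B hxv hA hB
  by_contra hc
  push Not at hc
  have h1 : Commute A B := by simpa using hc 1 (Or.inl rfl)
  exact hxv (hCT β x v B hB
    (ncb_mal hAB hCT hB (hCT β _ _ A hA h1 (hc x (Or.inr (Or.inl rfl)))))
    (ncb_mal hAB hCT hB (hCT β _ _ A hA h1 (hc v (Or.inr (Or.inr rfl))))))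

end Pool.Agent.P.MP_d589a8_al.Gz

namespace Pool.Agent.P.MP_d589a8_al.Gz

open Equiv Finset

lemma join_fix {α γ : Type} {f : α → γ} {I : γ → Prop} {a b : Perm α}
    (hb : ∀ p, f (b p) = f p) (ha : ∀ p, I (f p) → a p = p) (p : α) (hp : I (f p)) :
    b (a (b⁻¹ p)) = p := by
  have h1 : f (b⁻¹ p) = f p := by
    rw [← hb (b⁻¹ p)]; simp
  rw [ha _ (h1 ▸ hp)]
  simp

theorem p_JOIN (hNCB : S_NCB) :
    S_JOIN := by
  intro α β γ _ _ _ g f x v A B I J L hxv hx hv hA hB nx nv A1 B1 fA fB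
  obtain ⟨h, hh, hc⟩ := hNCB β x v A B hxv A1 B1
  have h1 : h ∈ Pres g f ∧ h.norm ≤ L := by
    rcases hh with rfl | rfl | rfl
    exacts [⟨one_mem _, by simp⟩, ⟨hx, nx⟩, ⟨hv, nv⟩]
  have h2 : h * B * h⁻¹ ∈ Pres g f := mul_mem (mul_mem h1.1 hB) (inv_mem h1.1)
  have h3 : (h * B * h⁻¹).norm ≤ B.norm + 2 * L := by
    have a1 := FreeGroup.norm_mul_le (h * B) h⁻¹
    have a2 := FreeGroup.norm_mul_le h B
    rw [FreeGroup.norm_inv_eq] at a1
    omega
  have h4 : ∀ p, J (f p) → FreeGroup.lift g (h * B * h⁻¹) p = p := fun p hp => by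
    rw [map_mul, map_mul, map_inv]
    exact join_fix h1.1 fB p hp
  generalize h * B * h⁻¹ = C at hc h2 h3 h4
  refine ⟨A * C * A⁻¹ * C⁻¹, mul_mem (mul_mem (mul_mem hA h2) (inv_mem hA)) (inv_mem h2),
    fun e => hc (commutatorElement_eq_one_iff_commute.1 e), ?_, fun p hp => ?_⟩
  · have a1 := FreeGroup.norm_mul_le (A * C * A⁻¹) C⁻¹
    have a2 := FreeGroup.norm_mul_le (A * C) A⁻¹
    have a3 := FreeGroup.norm_mul_le A C
    rw [FreeGroup.norm_inv_eq] at a1 a2
    omega
  · simp only [map_mul, map_inv, Perm.mul_apply]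
    rcases hp with hp | hp
    · rw [join_fix (a := (FreeGroup.lift g A)⁻¹) h2
        (fun q hq => Perm.inv_eq_iff_eq.2 (fA q hq).symm) p hp, fA p hp]
    · rw [Perm.inv_eq_iff_eq.2 (h4 p hp).symm]
      exact join_fix hA h4 p hp

end Pool.Agent.P.MP_d589a8_al.Gz

namespace Pool.Agent.P.MP_d589a8_al.Gz

open Equiv Finset

theorem p_TREE (hJOIN : S_JOIN) :
    S_TREE := by
  intro α β γ _ _ _ g f x v L l hc hx hv hxL hvL d
  classical
  induction d with
  | zero =>
    intro I hI h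
    rcases I.eq_empty_or_nonempty with rfl | ⟨c, hc'⟩
    · exact ⟨x, hx, fun e => hc (e ▸ Commute.one_left v), by omega, fun p hp => by simp at hp⟩
    · obtain ⟨a, a1, a2, a3, a4⟩ := h c hc'
      exact ⟨a, a1, a2, by omega, fun p hp => a4 p (card_le_one.1 hI _ hp _ hc')⟩
  | succ d ih =>
    intro I hI h
    obtain ⟨J, hJ, hJ'⟩ := exists_subset_card_eq (min_le_left I.card (2 ^ d))
    obtain ⟨A, a1, a2, a3, a4⟩ := ih J (hJ'.trans_le (min_le_right _ _)) fun c hc => h c (hJ hc)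
    obtain ⟨B, b1, b2, b3, b4⟩ := ih (I \ J)
      (by rw [card_sdiff_of_subset hJ, hJ']; rw [pow_succ] at hI; omega)
      fun c hc => h c (sdiff_subset hc)
    obtain ⟨W, w1, w2, w3, w4⟩ := hJOIN α β γ g f x v A B (· ∈ J) (· ∈ I \ J) L hc hx hv a1 b1
      hxL hvL a2 b2 a4 b4
    refine ⟨W, w1, w2, ?_, fun p hp => w4 p ?_⟩
    · rw [pow_succ, mul_right_comm]
      omega
    · simp only [mem_sdiff]
      tauto

end Pool.Agent.P.MP_d589a8_al.Gz

namespace Pool.Agent.P.MP_d589a8_al.Gz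

open Equiv Finset

lemma comb_tl {α : Type} (lev : α → ℕ) (j : ℕ) (p : α) :
    tl lev (j + 1) p = if tl lev j p ≤ j + 1 then 0 else tl lev j p := by
  unfold tl
  split_ifs <;> omega

theorem p_COMB (hJOIN : S_JOIN) :
    S_COMB := by
  intro α β _ _ _ g i lev r c hlev hLv
  have hx : ∀ j, FreeGroup.of i ∈ Pres g (tl lev j) := fun j p => by
    rw [FreeGroup.lift_apply_of]
    unfold tl
    rw [hlev]
  have key : ∀ j ≤ r, ∃ W ∈ Pres g (tl lev j), W ≠ 1 ∧ W.norm + c ≤ 2 ^ j * (1 + c) ∧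
      ∀ p, lev p < j → FreeGroup.lift g W p = p := by
    intro j
    induction j with
    | zero =>
      intro _
      refine ⟨FreeGroup.of i, hx 0, FreeGroup.of_ne_one i, ?_, fun p hp => absurd hp (by omega)⟩
      rw [FreeGroup.norm_of]
      omega
    | succ j ih =>
      intro hj
      obtain ⟨W, hW, hW1, hWn, hWt⟩ := ih (by omega)
      obtain ⟨B, v, L, hB, hv, hnc, hB1, hL, hvL, hc, hBt⟩ := hLv j (by omega)
      obtain ⟨V, hV, hV1, hVn, hVt⟩ := hJOIN α β ℕ g (tl lev j) (FreeGroup.of i) v W B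
        (fun t => t = 0) (fun t => t = j + 1) L hnc (hx j) hv hW hB
        (by rw [FreeGroup.norm_of]; exact hL) hvL hW1 hB1
        (fun p hp => hWt p (by
          unfold tl at hp
          split_ifs at hp with h
          exact h))
        (fun p hp => hBt p (by
          unfold tl at hp
          split_ifs at hp with h
          omega))
      refine ⟨V, fun p => ?_, hV1, ?_, fun p hp => hVt p ?_⟩
      · rw [comb_tl, comb_tl, hV p]
      · rw [pow_succ, mul_right_comm]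
        omega
      · unfold tl
        split_ifs with h
        · exact Or.inl rfl
        · exact Or.inr (by omega)
  obtain ⟨W, _, hW1, hWn, hWt⟩ := key r le_rfl
  exact ⟨W, hW1, by omega, hWt⟩

end Pool.Agent.P.MP_d589a8_al.Gz

namespace Pool.Agent.P.MP_d589a8_al.Gz

open Equiv Finset

lemma pig_red {β : Type} (L : List (β × Bool)) (h : ∀ a ∈ L, a.2 = true) :
    FreeGroup.IsReduced L := by
  unfold FreeGroup.IsReduced
  rw [List.isChain_iff_forall_rel_of_append_cons_cons]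
  intro a c l₁ l₂ hL _
  rw [h a (by simp [hL]), h c (by simp [hL])]

lemma pig_words {β : Type} [DecidableEq β] {i j : β} (hij : i ≠ j) (l : ℕ) :
    ∃ P : (Fin l → Bool) → FreeGroup β, Function.Injective P ∧ ∀ f, (P f).norm ≤ l := by
  refine ⟨fun f => FreeGroup.mk (List.ofFn fun t => (if f t then i else j, true)),
    fun f f' h => ?_, fun f => FreeGroup.norm_mk_le.trans (by simp)⟩
  have h1 := congrArg FreeGroup.toWord h
  rw [FreeGroup.toWord_mk, FreeGroup.toWord_mk, (pig_red _ (by simp)).reduce_eq,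
    (pig_red _ (by simp)).reduce_eq, List.ofFn_inj] at h1
  funext t
  have h2 := congrArg Prod.fst (congrFun h1 t)
  cases e : f t <;> cases e' : f' t <;> simp_all

theorem p_PIG (hCT : S_CT) (hNC : S_NC) :
    S_PIG := by
  intro α β _ _ _ g i j hij l a h0 ha hl
  obtain ⟨h, hh, hc⟩ := hNC β i j hij a ha
  obtain ⟨P, hP, hn⟩ := pig_words hij l
  have h1 : h.norm = 1 := by rcases hh with rfl | rfl <;> exact FreeGroup.norm_of _
  obtain ⟨S, hS⟩ : ∃ S, S = (FreeGroup.lift g a).support ∪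
    (FreeGroup.lift g (h * a * h⁻¹)).support := ⟨_, rfl⟩
  have h2 : S.card ≤ 2 * (FreeGroup.lift g a).support.card := by
    rw [hS, two_mul]
    refine (card_union_le _ _).trans ?_
    rw [map_mul, map_mul, map_inv, Perm.card_support_conj]
  obtain ⟨f, f', hf, e⟩ := Fintype.exists_ne_map_eq_of_card_lt
    (fun (f : Fin l → Bool) (x : S) => FreeGroup.lift g (P f) x) (by
      rw [Fintype.card_fun, Fintype.card_fun, Fintype.card_coe, Fintype.card_bool,
        Fintype.card_fin]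
      exact (Nat.pow_le_pow_right h0 h2).trans_lt hl)
  obtain ⟨v, hv⟩ : ∃ v, v = (P f')⁻¹ * P f := ⟨_, rfl⟩
  have v1 : v ≠ 1 := fun h => hf (hP (inv_mul_eq_one.1 (hv ▸ h)).symm)
  have v2 : v.norm ≤ 2 * l := by
    have := FreeGroup.norm_mul_le (P f')⁻¹ (P f)
    rw [FreeGroup.norm_inv_eq, ← hv] at this
    linarith [hn f, hn f']
  have v3 : ∀ x ∈ S, FreeGroup.lift g v x = x := fun x hx => by
    have := congrFun e ⟨x, hx⟩
    rw [hv, map_mul, map_inv, Perm.mul_apply, Perm.inv_eq_iff_eq]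
    exact this
  have key : ∀ c : FreeGroup β, ¬ Commute v c → c.norm ≤ a.norm + 2 →
      (FreeGroup.lift g c).support ⊆ S →
      ∃ w : FreeGroup β, w ≠ 1 ∧ w.norm ≤ 4 * l + 2 * a.norm + 4 ∧ FreeGroup.lift g w = 1 := by
    intro c c1 c2 c3
    refine ⟨v * c * (c * v)⁻¹, fun h => c1 (mul_inv_eq_one.1 h), ?_, ?_⟩
    · have := FreeGroup.norm_mul_le (v * c) (c * v)⁻¹
      rw [FreeGroup.norm_inv_eq] at this
      linarith [FreeGroup.norm_mul_le v c, FreeGroup.norm_mul_le c v]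
    · rw [map_mul, map_inv, mul_inv_eq_one, map_mul, map_mul]
      refine Perm.Disjoint.commute fun x => ?_
      by_cases hx : x ∈ S
      · exact .inl (v3 x hx)
      · exact .inr (Perm.notMem_support.1 fun h => hx (c3 h))
  by_cases hva : Commute v a
  · refine key _ (fun h => hc (hCT β _ _ v v1 hva h)) ?_ (hS ▸ subset_union_right)
    have := FreeGroup.norm_mul_le (h * a) h⁻¹
    rw [FreeGroup.norm_inv_eq] at this
    linarith [FreeGroup.norm_mul_le h a]
  · exact key a hva (by omega) (hS ▸ subset_union_left)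

end Pool.Agent.P.MP_d589a8_al.Gz
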