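import Mathlib
/-! Interface for the girth upper bound for random tuples of permutations. -/

set_option linter.unusedSectionVars false

namespace Pool.Agent.P.MP_d589a8_al.Gz

open Equiv Finset

/-- The number of elements of `s` with property `P`. -/
noncomputable def cn {X : Type} (s : Finset X) (P : X → Prop) : ℕ := by
  classical
  exact (s.filter P).card

lemma cn_eq {X : Type} (s : Finset X) (P : X → Prop) [DecidablePred P] :
    cn s P = (s.filter P).card := by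
  unfold cn
  congr

lemma cn_le {X : Type} (s : Finset X) (P : X → Prop) : cn s P ≤ s.card := by
  classical
  rw [cn_eq]
  exact card_filter_le _ _

lemma cn_mono {X : Type} {s : Finset X} {P Q : X → Prop} (h : ∀ x ∈ s, P x → Q x) :
    cn s P ≤ cn s Q := by
  classical
  rw [cn_eq, cn_eq]
  refine card_le_card fun x hx => ?_
  rw [mem_filter] at hx ⊢
  exact ⟨hx.1, h x hx.1 hx.2⟩

lemma cn_congr {X : Type} {s : Finset X} {P Q : X → Prop} (h : ∀ x ∈ s, P x ↔ Q x) :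
    cn s P = cn s Q :=
  le_antisymm (cn_mono fun x hx => (h x hx).1) (cn_mono fun x hx => (h x hx).2)

lemma cn_or_le {X : Type} (s : Finset X) (P Q : X → Prop) :
    cn s (fun x => P x ∨ Q x) ≤ cn s P + cn s Q := by
  classical
  rw [cn_eq, cn_eq, cn_eq, filter_or]
  exact card_union_le _ _

lemma cn_exists_le {X Y : Type} (s : Finset X) (I : Finset Y) (P : Y → X → Prop) :
    cn s (fun x => ∃ i ∈ I, P i x) ≤ ∑ i ∈ I, cn s (P i) := by
  classical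
  simp only [cn_eq]
  refine le_trans (card_le_card ?_) card_biUnion_le
  intro x hx
  rw [mem_filter] at hx
  obtain ⟨h1, i, hi, h2⟩ := hx
  exact mem_biUnion.2 ⟨i, hi, mem_filter.2 ⟨h1, h2⟩⟩

lemma cn_eq_sum {X : Type} (s : Finset X) (P : X → Prop) [DecidablePred P] :
    cn s P = ∑ x ∈ s, if P x then 1 else 0 := by
  rw [cn_eq, card_filter]

lemma sum_cn_comm {X Y : Type} (s : Finset X) (t : Finset Y) (P : X → Y → Prop) :
    ∑ x ∈ s, cn t (P x) = ∑ y ∈ t, cn s (fun x => P x y) := by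
  classical
  simp only [cn_eq_sum]
  exact sum_comm

lemma cn_prod {X Y : Type} [Fintype X] [Fintype Y] (P : X × Y → Prop) :
    cn univ P = ∑ y : Y, cn univ (fun x : X => P (x, y)) := by
  classical
  simp only [cn_eq_sum]
  exact Fintype.sum_prod_type_right _

lemma cn_equiv {X Y : Type} [Fintype X] [Fintype Y] (e : X ≃ Y) (P : Y → Prop) :
    cn univ (fun x => P (e x)) = cn univ P := by
  classical
  simp only [cn_eq_sum]
  exact Equiv.sum_comp e (fun y => if P y then 1 else 0)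

variable {α : Type} [Fintype α] [DecidableEq α]

/-- The cycle of `σ` through `p`, as a set of points. -/
noncomputable def cyc (σ : Perm α) (p : α) : Finset α := by
  classical
  exact univ.filter (σ.SameCycle p)

lemma mem_cyc {σ : Perm α} {p q : α} : q ∈ cyc σ p ↔ σ.SameCycle p q := by
  simp [cyc]

/-- Words whose value preserves the labelling `f`. -/
def Pres {β γ : Type} (g : β → Perm α) (f : α → γ) : Subgroup (FreeGroup β) where
  carrier := {w | ∀ p, f (FreeGroup.lift g w p) = f p}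
  mul_mem' := fun {a b} ha hb p => by
    rw [map_mul, Perm.mul_apply, ha, hb]
  one_mem' := fun p => by simp
  inv_mem' := fun {a} ha p => by
    rw [← ha (FreeGroup.lift g a⁻¹ p), map_inv]
    simp

lemma mem_Pres {β γ : Type} {g : β → Perm α} {f : α → γ} {w : FreeGroup β} :
    w ∈ Pres g f ↔ ∀ p, f (FreeGroup.lift g w p) = f p := Iff.rfl

/-- The levels below `j` are merged into one label. -/
def tl (lev : α → ℕ) (j : ℕ) (p : α) : ℕ := if lev p < j then 0 else lev p + 1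

/-- The tower function. -/
def tw (r : ℕ) : ℕ := (fun t : ℕ => 2 ^ t)^[r] 1

lemma tw_succ (r : ℕ) : tw (r + 1) = 2 ^ tw r := Function.iterate_succ_apply' _ _ _

/-- What one level of the construction provides, at cost `c`. -/
def Lv {β : Type} [DecidableEq β] (g : β → Perm α) (i : β) (lev : α → ℕ) (j c : ℕ) : Prop :=
  ∃ (B v : FreeGroup β) (L : ℕ), B ∈ Pres g (tl lev j) ∧ v ∈ Pres g (tl lev j) ∧
    ¬ Commute (FreeGroup.of i) v ∧ B ≠ 1 ∧ 1 ≤ L ∧ v.norm ≤ L ∧ 2 * B.norm + 4 * L ≤ c ∧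
    ∀ p, lev p = j → FreeGroup.lift g B p = p

/-- Few long cycle lengths and few points in short cycles, at the scales `τ`. -/
def Typ (τ : ℕ → ℕ) (r : ℕ) (σ : Perm α) : Prop :=
  (∀ j < r, cn (Icc 1 (Fintype.card α))
      (fun ρ => Fintype.card α < 2 ^ (16 * τ (j + 1)) * ρ ∧ ∃ p, (cyc σ p).card = ρ) ≤
        τ (j + 1) * (16 * τ (j + 1) + 1)) ∧
  ∀ j, 1 ≤ j → j ≤ r → 2 ^ (15 * τ j) *
    cn univ (fun p : α => 2 ^ (16 * τ j) * (cyc σ p).card ≤ Fintype.card α) ≤ Fintype.card α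

def S_CYC : Prop :=
  ∀ (α : Type) [Fintype α] [DecidableEq α] (σ : Perm α) (p : α),
    1 ≤ (cyc σ p).card ∧ (∀ q ∈ cyc σ p, (σ ^ (cyc σ p).card) q = q) ∧
    (∀ q ∈ cyc σ p, ∀ s < (cyc σ p).card, ∀ t < (cyc σ p).card,
      (σ ^ s) q = (σ ^ t) q → s = t) ∧
    (∀ q ∈ cyc σ p, ∃ s < (cyc σ p).card, (σ ^ s) p = q)

def S_AB : Prop :=
  ∀ (β : Type) (H : Subgroup (FreeGroup β)), (∀ a ∈ H, ∀ b ∈ H, Commute a b) →
    ∃ c ∈ H, ∀ a ∈ H, ∃ z : ℤ, a = c ^ z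

def S_CT : Prop :=
  ∀ (β : Type) (a b v : FreeGroup β), v ≠ 1 → Commute v a → Commute v b → Commute a b

def S_NCB : Prop :=
  ∀ (β : Type) (x v A B : FreeGroup β), ¬ Commute x v → A ≠ 1 → B ≠ 1 →
    ∃ h : FreeGroup β, (h = 1 ∨ h = x ∨ h = v) ∧ ¬ Commute A (h * B * h⁻¹)

def S_JOIN : Prop :=
  ∀ (α β γ : Type) [Fintype α] [DecidableEq α] [DecidableEq β] (g : β → Perm α) (f : α → γ)
    (x v A B : FreeGroup β) (I J : γ → Prop) (L : ℕ), ¬ Commute x v →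
    x ∈ Pres g f → v ∈ Pres g f → A ∈ Pres g f → B ∈ Pres g f → x.norm ≤ L → v.norm ≤ L →
    A ≠ 1 → B ≠ 1 → (∀ p, I (f p) → FreeGroup.lift g A p = p) →
    (∀ p, J (f p) → FreeGroup.lift g B p = p) →
    ∃ W ∈ Pres g f, W ≠ 1 ∧ W.norm ≤ 2 * A.norm + 2 * B.norm + 4 * L ∧
      ∀ p, I (f p) ∨ J (f p) → FreeGroup.lift g W p = p

def S_TREE : Prop :=
  ∀ (α β γ : Type) [Fintype α] [DecidableEq α] [DecidableEq β] (g : β → Perm α) (f : α → γ)
    (x v : FreeGroup β) (L l : ℕ), ¬ Commute x v → x ∈ Pres g f → v ∈ Pres g f →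
    x.norm ≤ L → v.norm ≤ L → ∀ (d : ℕ) (I : Finset γ), I.card ≤ 2 ^ d →
    (∀ c ∈ I, ∃ a ∈ Pres g f, a ≠ 1 ∧ a.norm ≤ l ∧ ∀ p, f p = c → FreeGroup.lift g a p = p) →
    ∃ B ∈ Pres g f, B ≠ 1 ∧ B.norm + 2 * L ≤ 4 ^ d * (l + 3 * L) ∧
      ∀ p, f p ∈ I → FreeGroup.lift g B p = p

def S_CNT : Prop :=
  ∀ (α γ : Type) [Fintype α] [DecidableEq α] (c : γ) (Λ : Finset γ) (m k e : ℕ)
    (F : Finset (α → γ)), Λ.card ≤ 2 ^ e →
    (∀ φ ∈ F, (∀ p, φ p ≠ c → φ p ∈ Λ) ∧ cn univ (fun p => φ p ≠ c) ≤ m) →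
    (F.card : ℝ) ≤ 2 ^ ((k + e) * m) * Real.exp (Fintype.card α / 2 ^ k)

def S_PH : Prop :=
  ∀ (α β γ : Type) [Fintype α] [DecidableEq α] [DecidableEq β] (g : β → Perm α) (i j : β),
    i ≠ j → ∀ (f : α → γ) (c : γ) (Λ : Finset γ) (m k e L : ℕ), Λ.card ≤ 2 ^ e →
    (∀ p, f p ≠ c → f p ∈ Λ) → cn univ (fun p => f p ≠ c) ≤ m →
    ((k + e) * m + 2 * Fintype.card α / 2 ^ k : ℝ) < L →
    ∃ v ∈ Pres g f, ¬ Commute (FreeGroup.of i) v ∧ v.norm ≤ 2 * L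

def S_LEV : Prop :=
  ∀ (α β : Type) [Fintype α] [DecidableEq α] [DecidableEq β] (g : β → Perm α) (i i' : β),
    i ≠ i' → ∀ (lev : α → ℕ) (r j d k m l L : ℕ), (∀ p, lev (g i p) = lev p) →
    (∀ p, lev p ≤ r) →
    cn (Icc 1 (Fintype.card α)) (fun ρ => ∃ p, lev p = j ∧ (cyc (g i) p).card = ρ) ≤ 2 ^ d →
    (∀ p, lev p = j → (cyc (g i) p).card ≤ l) → cn univ (fun p => j ≤ lev p) ≤ m →
    ((k + (d + r + 1)) * m + 2 * Fintype.card α / 2 ^ k : ℝ) < L →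
    Lv g i lev j (4 ^ d * (2 * l + 20 * L))

def S_LA : Prop :=
  ∀ (α β : Type) [Fintype α] [DecidableEq α] [DecidableEq β] (g : β → Perm α) (i i' : β),
    i ≠ i' → ∀ (lev : α → ℕ) (r j t : ℕ), 0 < Fintype.card α → (∀ p, lev (g i p) = lev p) →
    (∀ p, lev p ≤ r) →
    cn (Icc 1 (Fintype.card α)) (fun ρ => ∃ p, lev p = j ∧ (cyc (g i) p).card = ρ) ≤
      2 ^ t * (16 * 2 ^ t + 1) →
    Lv g i lev j (4 ^ (2 * t + 5) * 22 * (2 * t + 9) * (r + 1) * Fintype.card α)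

def S_LB : Prop :=
  ∀ (α β : Type) [Fintype α] [DecidableEq α] [DecidableEq β] (g : β → Perm α) (i i' : β),
    i ≠ i' → ∀ (lev : α → ℕ) (r j t : ℕ), 2 ≤ t → (∀ p, lev (g i p) = lev p) →
    (∀ p, lev p ≤ r) →
    cn (Icc 1 (Fintype.card α)) (fun ρ => ∃ p, lev p = j ∧ (cyc (g i) p).card = ρ) ≤
      2 ^ t * (16 * 2 ^ t + 1) →
    (∀ p, lev p = j → 2 ^ (16 * t) * (cyc (g i) p).card ≤ Fintype.card α) →
    2 ^ (15 * t) * cn univ (fun p => j ≤ lev p) ≤ Fintype.card α →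
    4096 * (2 ^ t) ^ 4 ≤ Fintype.card α →
    Lv g i lev j (6 * (r + 1) * Fintype.card α)

def S_COMB : Prop :=
  ∀ (α β : Type) [Fintype α] [DecidableEq α] [DecidableEq β] (g : β → Perm α) (i : β)
    (lev : α → ℕ) (r c : ℕ), (∀ p, lev (g i p) = lev p) → (∀ j < r, Lv g i lev j c) →
    ∃ W : FreeGroup β, W ≠ 1 ∧ W.norm ≤ 2 ^ r * (1 + c) ∧
      ∀ p, lev p < r → FreeGroup.lift g W p = p

def S_NC : Prop :=
  ∀ (β : Type) (i j : β), i ≠ j → ∀ a : FreeGroup β, a ≠ 1 →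
    ∃ h : FreeGroup β, (h = FreeGroup.of i ∨ h = FreeGroup.of j) ∧ ¬ Commute a (h * a * h⁻¹)

def S_PIG : Prop :=
  ∀ (α β : Type) [Fintype α] [DecidableEq α] [DecidableEq β] (g : β → Perm α) (i j : β),
    i ≠ j → ∀ (l : ℕ) (a : FreeGroup β), 0 < Fintype.card α → a ≠ 1 →
    Fintype.card α ^ (2 * (FreeGroup.lift g a).support.card) < 2 ^ l →
    ∃ w : FreeGroup β, w ≠ 1 ∧ w.norm ≤ 4 * l + 2 * a.norm + 4 ∧ FreeGroup.lift g w = 1

def S_DETB : Prop :=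
  ∀ (α β : Type) [Fintype α] [DecidableEq α] [DecidableEq β] (g : β → Perm α) (i i' : β),
    i ≠ i' → ∀ (τ : ℕ → ℕ) (r : ℕ), (∀ j, τ (j + 1) = 2 ^ τ j) → 2 ≤ τ 0 → 1 ≤ r →
    0 < Fintype.card α → Nat.log 2 (Fintype.card α) ≤ τ (r + 1) →
    (∀ j, 1 ≤ j → j < r → 4096 * τ (j + 1) ^ 4 ≤ Fintype.card α) → Typ τ r (g i) →
    ∃ w : FreeGroup β, w ≠ 1 ∧ FreeGroup.lift g w = 1 ∧
      w.norm ≤ 16 * (4 ^ (2 * τ 0 + 5) * 22 * (2 * τ 0 + 9)) * 3 ^ r * Fintype.card α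

def S_STEP : Prop :=
  ∀ (α : Type) [Fintype α] [DecidableEq α] (D : Perm α → Finset α) (q : Perm α → α)
    (A : Perm α → Finset α) (G : Perm α → Prop) (m N : ℕ),
    (∀ y y', G y → (∀ z ∈ D y, y' z = y z) → G y' ∧ D y' = D y ∧ q y' = q y ∧ A y' = A y) →
    (∀ y, G y → q y ∉ D y) → (∀ y, G y → (D y).card ≤ m) → (∀ y, G y → (A y).card ≤ N) →
    (Fintype.card α - m) * cn univ (fun y => G y ∧ y (q y) ∈ A y) ≤ N * cn univ G

def S_LEN : Prop :=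
  ∀ (α : Type) [Fintype α] [DecidableEq α] (p : α) (r : ℕ), 1 ≤ r → r ≤ Fintype.card α →
    Fintype.card α * cn univ (fun σ : Perm α => (cyc σ p).card = r) =
      (Fintype.card α).factorial

def S_PU : Prop :=
  ∀ (α : Type) [Fintype α] [DecidableEq α] (t : ℕ),
    2 ^ t * cn univ (fun σ : Perm α => Fintype.card α < 2 ^ (15 * t) *
      cn univ (fun p : α => 2 ^ (16 * t) * (cyc σ p).card ≤ Fintype.card α)) ≤
      (Fintype.card α).factorial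

def S_PT : Prop :=
  ∀ (α : Type) [Fintype α] [DecidableEq α] (u M : ℕ),
    M * cn univ (fun σ : Perm α => M * (u + 1) < cn (Icc 1 (Fintype.card α))
      (fun ρ => Fintype.card α < 2 ^ u * ρ ∧ ∃ p, (cyc σ p).card = ρ)) ≤
      (Fintype.card α).factorial

def S_TYP : Prop :=
  ∀ (α : Type) [Fintype α] [DecidableEq α] (τ : ℕ → ℕ) (r : ℕ), (∀ j, τ (j + 1) = 2 ^ τ j) →
    τ 1 * cn univ (fun σ : Perm α => ¬ Typ τ r σ) ≤ 4 * (Fintype.card α).factorial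

def S_PAR : Prop :=
  ∀ s : ℕ, ∃ n₀ : ℕ, ∀ n R : ℕ, n₀ ≤ n → n ≤ tw R → ∃ r, 1 ≤ r ∧ r ≤ R ∧
    Nat.log 2 n ≤ tw (r + 1 + s) ∧ ∀ j, 1 ≤ j → j < r → 4096 * tw (j + 1 + s) ^ 4 ≤ n

def S_SNB : Prop :=
  ∀ η : ℝ, 0 < η → ∃ C n₀ : ℕ, ∀ (α β : Type) [Fintype α] [DecidableEq α] [DecidableEq β]
    (R : ℕ), n₀ ≤ Fintype.card α → Fintype.card α ≤ tw R →
    (cn univ (fun x : Perm α => ∃ (g : β → Perm α) (i i' : β), i ≠ i' ∧ g i = x ∧
        ∀ w : FreeGroup β, w ≠ 1 → w.norm ≤ C * 3 ^ R * Fintype.card α →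
          FreeGroup.lift g w ≠ 1) : ℝ) ≤ η * (Fintype.card α).factorial

def S_MAINB : Prop :=
  ∀ η : ℝ, 0 < η → ∃ C n₀ : ℕ, ∀ m : ℕ, 2 ≤ m → ∀ n : ℕ, n₀ ≤ n →
    ∀ R : ℕ, n ≤ (fun t : ℕ => 2 ^ t)^[R] 1 →
      (Nat.card {x : alternatingGroup (Fin n) //
          ∃ g : Fin m → alternatingGroup (Fin n), x ∈ Set.range g ∧
            ∀ w : FreeGroup (Fin m), w ≠ 1 → w.norm ≤ C * 3 ^ R * n →
              FreeGroup.lift g w ≠ 1} : ℝ) ≤
        η * (Nat.card (alternatingGroup (Fin n)) : ℝ)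

end Pool.Agent.P.MP_d589a8_al.Gz
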